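import Pool.Agent.TH435.WG.Stmts

/-!
# WG-AND: monotonicity of a Gaussian integral of a quadratic form (job 1527)
-/

set_option autoImplicit false
open MeasureTheory ProbabilityTheory Matrix
open scoped ENNReal

namespace Pool.Agent.TH435.WG

namespace AndX

/-! ### dimension one -/

/-- symmetrised Gaussian density -/
noncomputable def pp (μ x : ℝ) : ℝ := gaussianPDFReal μ 1 x + gaussianPDFReal (-μ) 1 x

theorem pp_nonneg (μ x : ℝ) : 0 ≤ pp μ x :=
  add_nonneg (gaussianPDFReal_nonneg _ _ _) (gaussianPDFReal_nonneg _ _ _)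

theorem pp_eq (μ x : ℝ) : pp μ x =
    2 * (√(2 * Real.pi))⁻¹ * Real.exp (-(x ^ 2 / 2)) * Real.exp (-(μ ^ 2 / 2)) *
      Real.cosh (μ * x) := by
  unfold pp gaussianPDFReal
  rw [Real.cosh_eq]
  have h1 : Real.exp (-(x - μ) ^ 2 / (2 * ((1 : NNReal) : ℝ))) =
      Real.exp (-(x ^ 2 / 2)) * Real.exp (-(μ ^ 2 / 2)) * Real.exp (μ * x) := by
    rw [← Real.exp_add, ← Real.exp_add]
    congr 1
    push_cast
    ring
  have h2 : Real.exp (-(x - -μ) ^ 2 / (2 * ((1 : NNReal) : ℝ))) =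
      Real.exp (-(x ^ 2 / 2)) * Real.exp (-(μ ^ 2 / 2)) * Real.exp (-(μ * x)) := by
    rw [← Real.exp_add, ← Real.exp_add]
    congr 1
    push_cast
    ring
  rw [h1, h2]
  push_cast
  rw [mul_one]
  ring

theorem cosh_ineq (μ μ' x y : ℝ) (h0 : 0 ≤ μ) (h1 : μ ≤ μ') (h2 : 0 ≤ y) (h3 : y ≤ x) :
    Real.cosh (μ * x) * Real.cosh (μ' * y) ≤ Real.cosh (μ' * x) * Real.cosh (μ * y) := by
  have e1 : ∀ a b : ℝ, Real.cosh a * Real.cosh b =
      (Real.cosh (a + b) + Real.cosh (a - b)) / 2 := by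
    intro a b
    rw [Real.cosh_add, Real.cosh_sub]
    ring
  rw [e1, e1]
  have h4 : Real.cosh (μ * x + μ' * y) ≤ Real.cosh (μ' * x + μ * y) := by
    have a1 : 0 ≤ μ' * x := mul_nonneg (h0.trans h1) (h2.trans h3)
    have a2 : 0 ≤ μ * y := mul_nonneg h0 h2
    have a3 : 0 ≤ μ * x := mul_nonneg h0 (h2.trans h3)
    have a4 : 0 ≤ μ' * y := mul_nonneg (h0.trans h1) h2
    rw [Real.cosh_le_cosh, abs_of_nonneg (by linarith), abs_of_nonneg (by linarith)]
    nlinarith [mul_nonneg (sub_nonneg.2 h1) (sub_nonneg.2 h3)]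
  have h5 : Real.cosh (μ * x - μ' * y) ≤ Real.cosh (μ' * x - μ * y) := by
    rw [Real.cosh_le_cosh]
    have hx : 0 ≤ x := h2.trans h3
    have h6 : μ * y ≤ μ' * x := mul_le_mul h1 h3 h2 (h0.trans h1)
    rw [abs_of_nonneg (by linarith : 0 ≤ μ' * x - μ * y), abs_le]
    constructor
    · nlinarith [mul_nonneg (sub_nonneg.2 h3) (add_nonneg h0 (h0.trans h1))]
    · nlinarith [mul_nonneg (sub_nonneg.2 h1) (add_nonneg hx h2)]
  linarith

theorem pp_ineq (μ μ' x y : ℝ) (h1 : |μ| ≤ |μ'|) (h3 : |y| ≤ |x|) :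
    pp μ x * pp μ' y ≤ pp μ' x * pp μ y := by
  have hc : ∀ a b : ℝ, Real.cosh (a * b) = Real.cosh (|a| * |b|) := by
    intro a b
    rw [← abs_mul, Real.cosh_abs]
  have h := cosh_ineq |μ| |μ'| |x| |y| (abs_nonneg _) h1 (abs_nonneg _) h3
  rw [← hc, ← hc, ← hc, ← hc] at h
  rw [pp_eq, pp_eq, pp_eq, pp_eq]
  have hK : 0 ≤ (2 * (√(2 * Real.pi))⁻¹) * (2 * (√(2 * Real.pi))⁻¹) *
      (Real.exp (-(x ^ 2 / 2)) * Real.exp (-(y ^ 2 / 2)) * Real.exp (-(μ ^ 2 / 2)) *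
        Real.exp (-(μ' ^ 2 / 2))) := by positivity
  nlinarith [mul_le_mul_of_nonneg_left h hK]

theorem shift_eq (F : ℝ → ℝ≥0∞) (hF : Measurable F) (μ : ℝ) :
    ∫⁻ x, F (x + μ) ∂(gaussianReal 0 1) = ∫⁻ x, gaussianPDF μ 1 x * F x := by
  have h1 : ∫⁻ x, F (x + μ) ∂(gaussianReal 0 1) = ∫⁻ x, F x ∂(gaussianReal μ 1) := by
    rw [← zero_add μ, ← gaussianReal_map_add_const, lintegral_map hF (by fun_prop)]
    simp
  rw [h1, gaussianReal_of_var_ne_zero _ one_ne_zero,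
    lintegral_withDensity_eq_lintegral_mul _ (measurable_gaussianPDF _ _) hF]
  rfl

theorem shift_neg (F : ℝ → ℝ≥0∞) (hF : Measurable F) (hev : ∀ x, F (-x) = F x) (μ : ℝ) :
    ∫⁻ x, F (x + -μ) ∂(gaussianReal 0 1) = ∫⁻ x, F (x + μ) ∂(gaussianReal 0 1) := by
  have h1 : ∫⁻ x, F (x + μ) ∂((gaussianReal 0 1).map (fun x => -x)) =
      ∫⁻ x, F (-x + μ) ∂(gaussianReal 0 1) :=
    lintegral_map (hF.comp (by fun_prop)) (by fun_prop)
  rw [gaussianReal_map_neg, neg_zero] at h1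
  rw [h1]
  refine lintegral_congr fun x => ?_
  rw [← hev]
  congr 1
  ring

theorem shift_pp (F : ℝ → ℝ≥0∞) (hF : Measurable F) (hev : ∀ x, F (-x) = F x) (μ : ℝ) :
    2 * ∫⁻ x, F (x + μ) ∂(gaussianReal 0 1) = ∫⁻ x, F x * ENNReal.ofReal (pp μ x) := by
  rw [two_mul]
  nth_rewrite 2 [← shift_neg F hF hev μ]
  rw [shift_eq F hF, shift_eq F hF,
    ← lintegral_add_left (f := fun x => gaussianPDF μ 1 x * F x)
      ((measurable_gaussianPDF _ _).mul hF)]
  refine lintegral_congr fun x => ?_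
  rw [pp, ENNReal.ofReal_add (gaussianPDFReal_nonneg _ _ _) (gaussianPDFReal_nonneg _ _ _),
    ← add_mul, mul_comm]
  rfl

theorem pp_meas (μ : ℝ) : Measurable (pp μ) :=
  (measurable_gaussianPDFReal _ _).add (measurable_gaussianPDFReal _ _)

theorem pp_int (μ : ℝ) : ∫⁻ x, ENNReal.ofReal (pp μ x) = 2 := by
  have := shift_pp (fun _ => 1) measurable_const (fun _ => rfl) μ
  simpa using this.symm

theorem enn_ineq (a a' b b' : ℝ≥0∞) (ha : a ≤ a') (hb : b ≤ b') :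
    a' * b + a * b' ≤ a' * b' + a * b := by
  obtain ⟨c, rfl⟩ := exists_add_of_le hb
  calc a' * b + a * (b + c) = a' * b + a * b + a * c := by ring
    _ ≤ a' * b + a * b + a' * c := by gcongr
    _ = a' * (b + c) + a * b := by ring

/-- The one-dimensional statement. -/
theorem one (F : ℝ → ℝ≥0∞) (hF : Measurable F) (hm : ∀ x y : ℝ, |x| ≤ |y| → F x ≤ F y)
    (μ μ' : ℝ) (h : |μ| ≤ |μ'|) :
    ∫⁻ x, F (x + μ) ∂(gaussianReal 0 1) ≤ ∫⁻ x, F (x + μ') ∂(gaussianReal 0 1) := by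
  have hev : ∀ x, F (-x) = F x := fun x =>
    le_antisymm (hm _ _ (by rw [abs_neg])) (hm _ _ (by rw [abs_neg]))
  set P : ℝ → ℝ≥0∞ := fun x => ENNReal.ofReal (pp μ x) with hP
  set P' : ℝ → ℝ≥0∞ := fun x => ENNReal.ofReal (pp μ' x) with hP'
  have hPm : Measurable P := (pp_meas μ).ennreal_ofReal
  have hPm' : Measurable P' := (pp_meas μ').ennreal_ofReal
  have hP2 : ∫⁻ x, P x = 2 := pp_int μ
  have hP2' : ∫⁻ x, P' x = 2 := pp_int μ'
  have key : ∀ x y, F x * P x * P' y + F y * P y * P' x ≤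
      F x * P' x * P y + F y * P' y * P x := by
    intro x y
    rcases le_total |y| |x| with hxy | hxy
    · have h1 : P x * P' y ≤ P' x * P y := by
        simp only [hP, hP']
        rw [← ENNReal.ofReal_mul (pp_nonneg _ _), ← ENNReal.ofReal_mul (pp_nonneg _ _)]
        exact ENNReal.ofReal_le_ofReal (pp_ineq μ μ' x y h hxy)
      have h2 := enn_ineq (F y) (F x) _ _ (hm y x hxy) h1
      calc F x * P x * P' y + F y * P y * P' x = F x * (P x * P' y) + F y * (P' x * P y) := by ring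
        _ ≤ F x * (P' x * P y) + F y * (P x * P' y) := h2
        _ = _ := by ring
    · have h1 : P y * P' x ≤ P' y * P x := by
        simp only [hP, hP']
        rw [← ENNReal.ofReal_mul (pp_nonneg _ _), ← ENNReal.ofReal_mul (pp_nonneg _ _)]
        exact ENNReal.ofReal_le_ofReal (pp_ineq μ μ' y x h hxy)
      have h2 := enn_ineq (F x) (F y) _ _ (hm x y hxy) h1
      calc F x * P x * P' y + F y * P y * P' x = F y * (P y * P' x) + F x * (P' y * P x) := by ring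
        _ ≤ F y * (P' y * P x) + F x * (P y * P' x) := h2
        _ = _ := by ring
  have hint : ∀ (A B : ℝ → ℝ≥0∞), Measurable A → Measurable B →
      ∫⁻ x, ∫⁻ y, (A x * B y + A y * B x) = 2 * ((∫⁻ x, A x) * ∫⁻ x, B x) := by
    intro A B hA hB
    have e1 : ∀ x, ∫⁻ y, (A x * B y + A y * B x) = A x * (∫⁻ y, B y) + (∫⁻ y, A y) * B x := by
      intro x
      rw [lintegral_add_left (hB.const_mul _), lintegral_const_mul _ hB, lintegral_mul_const _ hA]
    simp_rw [e1]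
    rw [lintegral_add_left (hA.mul_const _), lintegral_mul_const _ hA, lintegral_const_mul _ hB]
    ring
  have hmain : ∫⁻ x, ∫⁻ y, (F x * P x * P' y + F y * P y * P' x) ≤
      ∫⁻ x, ∫⁻ y, (F x * P' x * P y + F y * P' y * P x) :=
    lintegral_mono fun x => lintegral_mono fun y => key x y
  rw [hint (fun x => F x * P x) P' (hF.mul hPm) hPm',
    hint (fun x => F x * P' x) P (hF.mul hPm') hPm, hP2, hP2', ← shift_pp F hF hev μ,
    ← shift_pp F hF hev μ'] at hmain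
  have h8 : (8 : ℝ≥0∞) * ∫⁻ x, F (x + μ) ∂(gaussianReal 0 1) ≤
      8 * ∫⁻ x, F (x + μ') ∂(gaussianReal 0 1) := by
    calc (8 : ℝ≥0∞) * ∫⁻ x, F (x + μ) ∂(gaussianReal 0 1) =
          2 * ((2 * ∫⁻ x, F (x + μ) ∂(gaussianReal 0 1)) * 2) := by ring
      _ ≤ 2 * ((2 * ∫⁻ x, F (x + μ') ∂(gaussianReal 0 1)) * 2) := hmain
      _ = _ := by ring
  exact (ENNReal.mul_le_mul_iff_right (by norm_num) (by norm_num)).1 h8

/-! ### dimension `n` -/

theorem lint_gauss (n : ℕ) (F : (Fin (n + 1) → ℝ) → ℝ≥0∞) (hF : Measurable F) :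
    ∫⁻ η, F η ∂(gauss (n + 1)) =
      ∫⁻ s, ∫⁻ η', F (Fin.cons s η') ∂(gauss n) ∂(gaussianReal 0 1) := by
  have h := (measurePreserving_piFinSuccAbove (fun _ : Fin (n + 1) => gaussianReal 0 1) 0).symm
  have h1 := h.lintegral_comp hF
  unfold gauss
  rw [← h1, lintegral_prod]
  · refine lintegral_congr fun s => lintegral_congr fun η' => ?_
    rw [← Fin.insertNth_zero']
    rfl
  · exact (hF.comp (MeasurableEquiv.measurable _)).aemeasurable

instance gaussP (n : ℕ) : IsProbabilityMeasure (gauss n) := by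
  unfold gauss
  infer_instance

theorem multi : ∀ (n : ℕ) (Ψ : (Fin n → ℝ) → ℝ≥0∞), Measurable Ψ →
    (∀ x y : Fin n → ℝ, (∀ i, |x i| ≤ |y i|) → Ψ x ≤ Ψ y) →
    ∀ v w : Fin n → ℝ, (∀ i, |v i| ≤ |w i|) →
    ∫⁻ ξ, Ψ (ξ + v) ∂(gauss n) ≤ ∫⁻ ξ, Ψ (ξ + w) ∂(gauss n)
  | 0, Ψ, _, hm, v, w, hvw => by
    refine lintegral_mono fun ξ => hm _ _ fun i => i.elim0
  | n + 1, Ψ, hΨ, hm, v, w, hvw => by
    have hc : Measurable fun p : ℝ × (Fin n → ℝ) => (Fin.cons p.1 p.2 : Fin (n + 1) → ℝ) := by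
      refine measurable_pi_lambda _ fun i => ?_
      refine Fin.cases ?_ (fun j => ?_) i
      · simp only [Fin.cons_zero]; fun_prop
      · simp only [Fin.cons_succ]; fun_prop
    have hadd : ∀ (s : ℝ) (η' : Fin n → ℝ) (u : Fin (n + 1) → ℝ),
        (Fin.cons s η' : Fin (n + 1) → ℝ) + u = Fin.cons (s + u 0) (η' + Fin.tail u) := by
      intro s η' u
      funext i
      refine Fin.cases ?_ (fun j => ?_) i
      · simp
      · simp [Fin.tail]
    have hs : ∀ u : Fin (n + 1) → ℝ, Measurable fun ξ : Fin (n + 1) → ℝ => Ψ (ξ + u) :=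
      fun u => hΨ.comp (by fun_prop : Measurable fun ξ : Fin (n + 1) → ℝ => ξ + u)
    rw [lint_gauss n _ (hs v), lint_gauss n _ (hs w)]
    simp only [hadd]
    calc ∫⁻ s, ∫⁻ η', Ψ (Fin.cons (s + v 0) (η' + Fin.tail v)) ∂(gauss n) ∂(gaussianReal 0 1)
        ≤ ∫⁻ s, ∫⁻ η', Ψ (Fin.cons (s + v 0) (η' + Fin.tail w)) ∂(gauss n) ∂(gaussianReal 0 1) := by
          refine lintegral_mono fun s => ?_
          refine multi n (fun z => Ψ (Fin.cons (s + v 0) z)) ?_ ?_ (Fin.tail v) (Fin.tail w)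
            (fun i => hvw i.succ)
          · exact hΨ.comp (hc.comp (by fun_prop : Measurable fun z : Fin n → ℝ => (s + v 0, z)))
          · intro x y hxy
            refine hm _ _ fun i => ?_
            refine Fin.cases ?_ (fun j => ?_) i
            · simp
            · simpa using hxy j
      _ = ∫⁻ η', ∫⁻ s, Ψ (Fin.cons (s + v 0) (η' + Fin.tail w)) ∂(gaussianReal 0 1) ∂(gauss n) := by
          rw [lintegral_lintegral_swap]
          refine (hΨ.comp (hc.comp (?_ : Measurable fun p : ℝ × (Fin n → ℝ) =>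
            (p.1 + v 0, p.2 + Fin.tail w)))).aemeasurable
          fun_prop
      _ ≤ ∫⁻ η', ∫⁻ s, Ψ (Fin.cons (s + w 0) (η' + Fin.tail w)) ∂(gaussianReal 0 1) ∂(gauss n) := by
          refine lintegral_mono fun η' => ?_
          refine one (fun z => Ψ (Fin.cons z (η' + Fin.tail w))) ?_ ?_ (v 0) (w 0) (hvw 0)
          · exact hΨ.comp (hc.comp
              (by fun_prop : Measurable fun z : ℝ => (z, η' + Fin.tail w)))
          · intro x y hxy
            refine hm _ _ fun i => ?_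
            refine Fin.cases ?_ (fun j => ?_) i
            · simpa using hxy
            · simp
      _ = ∫⁻ s, ∫⁻ η', Ψ (Fin.cons (s + w 0) (η' + Fin.tail w)) ∂(gauss n) ∂(gaussianReal 0 1) := by
          rw [lintegral_lintegral_swap]
          refine (hΨ.comp (hc.comp (?_ : Measurable fun p : (Fin n → ℝ) × ℝ =>
            (p.2 + w 0, p.1 + Fin.tail w)))).aemeasurable
          fun_prop

/-! ### diagonalisation -/

theorem diagPart (n : ℕ) (K : Matrix (Fin n) (Fin n) ℝ) (hK : K.PosSemidef) :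
    ∃ (O : Matrix (Fin n) (Fin n) ℝ) (k : Fin n → ℝ), (∀ i, 0 ≤ k i) ∧
      Oᵀ * K * O = diagonal k ∧
      ∀ Ψ : (Fin n → ℝ) → ℝ≥0∞, Measurable Ψ →
        ∫⁻ η, Ψ η ∂(gauss n) = ∫⁻ ξ, Ψ (O *ᵥ ξ) ∂(gauss n) := by
  have hH := hK.1
  refine ⟨(hH.eigenvectorUnitary : Matrix (Fin n) (Fin n) ℝ), hH.eigenvalues,
    hK.eigenvalues_nonneg, ?_, ?_⟩
  · have h := hH.conjStarAlgAut_star_eigenvectorUnitary
    rw [Unitary.conjStarAlgAut_star_apply] at h
    simpa [Matrix.star_eq_conjTranspose] using h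
  · intro Ψ hΨ
    set b := hH.eigenvectorBasis with hb
    have h1 : (Measure.pi (fun _ : Fin n => gaussianReal 0 1)).map
        (WithLp.toLp 2 : (Fin n → ℝ) → EuclideanSpace ℝ (Fin n)) =
        (Measure.pi (fun _ : Fin n => gaussianReal 0 1)).map (fun x => ∑ i, x i • b i) :=
      map_pi_eq_stdGaussian.trans (stdGaussian_eq_map_pi_orthonormalBasis b)
    have hm : Measurable fun z : EuclideanSpace ℝ (Fin n) => Ψ (WithLp.ofLp z) :=
      hΨ.comp (by fun_prop)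
    have h2 := lintegral_map (μ := Measure.pi (fun _ : Fin n => gaussianReal 0 1)) hm
      (g := (WithLp.toLp 2 : (Fin n → ℝ) → EuclideanSpace ℝ (Fin n))) (by fun_prop)
    have h3 := lintegral_map (μ := Measure.pi (fun _ : Fin n => gaussianReal 0 1)) hm
      (g := fun x => ∑ i, x i • b i) (by fun_prop)
    rw [h1, h3] at h2
    unfold gauss
    rw [← h2]
    refine lintegral_congr fun ξ => ?_
    congr 1
    funext j
    simp only [WithLp.ofLp_sum, Finset.sum_apply, mulVec, dotProduct]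
    refine Finset.sum_congr rfl fun i _ => ?_
    rw [Matrix.IsHermitian.eigenvectorUnitary_apply]
    simp [mul_comm, hb]

theorem dot_symm {p : ℕ} (B : Matrix (Fin p) (Fin p) ℝ) (hB : Bᵀ = B) (v w : Fin p → ℝ) :
    v ⬝ᵥ (B *ᵥ w) = w ⬝ᵥ (B *ᵥ v) := by
  rw [Matrix.dotProduct_mulVec, ← Matrix.mulVec_transpose, hB, dotProduct_comm]

theorem dot_shift {p n : ℕ} (E : Matrix (Fin p) (Fin n) ℝ) (ξ : Fin n → ℝ) (v : Fin p → ℝ) :
    (E *ᵥ ξ) ⬝ᵥ v = ξ ⬝ᵥ (Eᵀ *ᵥ v) := by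
  rw [Matrix.dotProduct_mulVec ξ, Matrix.vecMul_transpose]

theorem det_rank_one {p : ℕ} (A : Matrix (Fin p) (Fin p) ℝ) (hA : IsUnit A.det) (w : Fin p → ℝ) :
    (A + vecMulVec w w).det = A.det * (1 + w ⬝ᵥ (A⁻¹ *ᵥ w)) := by
  have h := Matrix.det_add_replicateCol_mul_replicateRow (ι := Unit) hA w w
  rw [Matrix.vecMulVec_eq Unit, h]
  congr 1
  rw [Matrix.det_unique]
  simp only [Matrix.add_apply, Matrix.one_apply_eq]
  congr 1
  rw [Matrix.mul_assoc, ← Matrix.replicateCol_mulVec, Matrix.replicateRow_mul_replicateCol_apply]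

end AndX

open AndX in
theorem and_holds : S_AND := by
  intro p n A C c ν hA hν t t' ht htt'
  have hAi : A⁻¹.PosDef := hA.inv
  have hAs : A⁻¹ᵀ = A⁻¹ := by
    have := hAi.1
    rwa [Matrix.IsHermitian, Matrix.conjTranspose_eq_transpose_of_trivial] at this
  have hK : (Cᵀ * A⁻¹ * C).PosSemidef := by
    have := hAi.posSemidef.conjTranspose_mul_mul_same C
    rwa [Matrix.conjTranspose_eq_transpose_of_trivial] at this
  obtain ⟨O, k, hk, hO, hch⟩ := diagPart n _ hK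
  obtain ⟨E, hE⟩ : ∃ E : Matrix (Fin p) (Fin n) ℝ, E = C * O := ⟨_, rfl⟩
  have hEd : Eᵀ * A⁻¹ * E = diagonal k := by
    rw [hE, ← hO, transpose_mul]
    simp only [Matrix.mul_assoc]
  set g0 : ℝ := c ⬝ᵥ (A⁻¹ *ᵥ c) with hg0
  set u : Fin n → ℝ := Eᵀ *ᵥ (A⁻¹ *ᵥ c) with hu
  -- the quadratic form
  have hq : ∀ (s : ℝ) (ξ : Fin n → ℝ),
      (s • c + E *ᵥ ξ) ⬝ᵥ (A⁻¹ *ᵥ (s • c + E *ᵥ ξ)) =
        s ^ 2 * g0 + 2 * s * (∑ i, u i * ξ i) + ∑ i, k i * ξ i ^ 2 := by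
    intro s ξ
    have e1 : (E *ᵥ ξ) ⬝ᵥ (A⁻¹ *ᵥ (E *ᵥ ξ)) = ∑ i, k i * ξ i ^ 2 := by
      have : (E *ᵥ ξ) ⬝ᵥ (A⁻¹ *ᵥ (E *ᵥ ξ)) = ξ ⬝ᵥ ((Eᵀ * A⁻¹ * E) *ᵥ ξ) := by
        rw [dot_shift, ← Matrix.mulVec_mulVec, ← Matrix.mulVec_mulVec]
      rw [this, hEd, dotProduct]
      refine Finset.sum_congr rfl fun i _ => ?_
      rw [Matrix.mulVec_diagonal]
      ring
    have e2 : (E *ᵥ ξ) ⬝ᵥ (A⁻¹ *ᵥ c) = ∑ i, u i * ξ i := by
      rw [dot_shift, dotProduct]
      exact Finset.sum_congr rfl fun i _ => mul_comm _ _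
    have e3 : c ⬝ᵥ (A⁻¹ *ᵥ (E *ᵥ ξ)) = ∑ i, u i * ξ i := by
      rw [← e2, dot_symm A⁻¹ hAs]
    rw [Matrix.mulVec_add, Matrix.mulVec_smul, add_dotProduct, dotProduct_add, dotProduct_add,
      smul_dotProduct, smul_dotProduct, dotProduct_smul, dotProduct_smul, e1, e2, e3]
    simp only [smul_eq_mul]
    ring
  have hq0 : ∀ (s : ℝ) (ξ : Fin n → ℝ),
      0 ≤ s ^ 2 * g0 + 2 * s * (∑ i, u i * ξ i) + ∑ i, k i * ξ i ^ 2 := by
    intro s ξ
    rw [← hq]
    have := hAi.posSemidef.dotProduct_mulVec_nonneg (s • c + E *ᵥ ξ)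
    simpa using this
  -- the linear coefficients vanish where `k` does
  have hu0 : ∀ i, k i = 0 → u i = 0 := by
    intro i hi
    by_contra hne
    have h1 := hq0 1 (Pi.single i (-(g0 + 1) / (2 * u i)))
    have e1 : ∑ j, u j * (Pi.single i (-(g0 + 1) / (2 * u i)) : Fin n → ℝ) j =
        u i * (-(g0 + 1) / (2 * u i)) := by
      rw [Finset.sum_eq_single i]
      · simp
      · intro j _ hj
        rw [Pi.single_eq_of_ne hj, mul_zero]
      · simp
    have e2 : ∑ j, k j * (Pi.single i (-(g0 + 1) / (2 * u i)) : Fin n → ℝ) j ^ 2 = 0 := by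
      refine Finset.sum_eq_zero fun j _ => ?_
      by_cases hj : j = i
      · rw [hj, hi, zero_mul]
      · rw [Pi.single_eq_of_ne hj]; simp
    rw [e1, e2] at h1
    have e3 : u i * (-(g0 + 1) / (2 * u i)) = -(g0 + 1) / 2 := by
      field_simp
    rw [e3] at h1
    linarith
  set β : Fin n → ℝ := fun i => u i / k i with hβ
  have hkβ : ∀ i, k i * β i = u i := by
    intro i
    by_cases hi : k i = 0
    · rw [hi, zero_mul, hu0 i hi]
    · simp only [hβ]; field_simp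
  set γ : ℝ := g0 - ∑ i, k i * β i ^ 2 with hγ
  have hsq : ∀ (s : ℝ) (ξ : Fin n → ℝ),
      s ^ 2 * g0 + 2 * s * (∑ i, u i * ξ i) + ∑ i, k i * ξ i ^ 2 =
        (∑ i, k i * (ξ + s • β) i ^ 2) + s ^ 2 * γ := by
    intro s ξ
    have e1 : ∑ i, k i * (ξ + s • β) i ^ 2 =
        (∑ i, k i * ξ i ^ 2) + 2 * s * (∑ i, u i * ξ i) + s ^ 2 * ∑ i, k i * β i ^ 2 := by
      rw [Finset.mul_sum, Finset.mul_sum, ← Finset.sum_add_distrib, ← Finset.sum_add_distrib]
      refine Finset.sum_congr rfl fun i _ => ?_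
      simp only [Pi.add_apply, Pi.smul_apply, smul_eq_mul]
      rw [← hkβ i]
      ring
    rw [e1, hγ]
    ring
  have hγ0 : 0 ≤ γ := by
    have h1 := hq0 1 (-β)
    rw [hsq] at h1
    simpa using h1
  set Ψ : ℝ → (Fin n → ℝ) → ℝ≥0∞ := fun s x =>
    ENNReal.ofReal ((A.det * (1 + ((∑ i, k i * x i ^ 2) + s))) ^ ν) with hΨ
  have hD : 0 < A.det := hA.det_pos
  have hΨm : ∀ s, Measurable (Ψ s) := fun s => by
    simp only [hΨ]
    fun_prop
  have hform : ∀ s : ℝ, ∫⁻ η, ENNReal.ofReal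
      ((A + vecMulVec (s • c + C *ᵥ η) (s • c + C *ᵥ η)).det ^ ν) ∂(gauss n) =
        ∫⁻ ξ, Ψ (s ^ 2 * γ) (ξ + s • β) ∂(gauss n) := by
    intro s
    rw [hch]
    · refine lintegral_congr fun ξ => ?_
      simp only [hΨ]
      rw [Matrix.mulVec_mulVec, ← hE, det_rank_one A hD.ne'.isUnit, hq, hsq]
    · have : Measurable fun η : Fin n → ℝ =>
          (A + vecMulVec (s • c + C *ᵥ η) (s • c + C *ᵥ η)).det := by
        apply Continuous.measurable
        apply Continuous.matrix_det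
        refine continuous_matrix fun i j => ?_
        simp only [Matrix.add_apply, vecMulVec_apply, Pi.add_apply, Pi.smul_apply, mulVec,
          dotProduct]
        fun_prop
      exact (this.pow_const ν).ennreal_ofReal
  rw [hform, hform]
  have hsum0 : ∀ x : Fin n → ℝ, 0 ≤ ∑ i, k i * x i ^ 2 := fun x =>
    Finset.sum_nonneg fun i _ => mul_nonneg (hk i) (sq_nonneg _)
  calc ∫⁻ ξ, Ψ (t ^ 2 * γ) (ξ + t • β) ∂(gauss n)
      ≤ ∫⁻ ξ, Ψ (t ^ 2 * γ) (ξ + t' • β) ∂(gauss n) := by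
        refine multi n (Ψ (t ^ 2 * γ)) (hΨm _) ?_ _ _ ?_
        · intro x y hxy
          simp only [hΨ]
          refine ENNReal.ofReal_le_ofReal (Real.rpow_le_rpow ?_ ?_ hν)
          · have := hsum0 x
            positivity
          · have hs1 : ∑ i, k i * x i ^ 2 ≤ ∑ i, k i * y i ^ 2 :=
              Finset.sum_le_sum fun i _ => mul_le_mul_of_nonneg_left (sq_le_sq.2 (hxy i)) (hk i)
            exact mul_le_mul_of_nonneg_left (by linarith) hD.le
        · intro i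
          simp only [Pi.smul_apply, smul_eq_mul, abs_mul, abs_of_nonneg ht,
            abs_of_nonneg (ht.trans htt')]
          gcongr
    _ ≤ ∫⁻ ξ, Ψ (t' ^ 2 * γ) (ξ + t' • β) ∂(gauss n) := by
        refine lintegral_mono fun ξ => ?_
        simp only [hΨ]
        refine ENNReal.ofReal_le_ofReal (Real.rpow_le_rpow ?_ ?_ hν)
        · have := hsum0 (ξ + t' • β)
          positivity
        · gcongr

end Pool.Agent.TH435.WG
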