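import Pool.Agent.TH435.WG.Stmts
import Pool.Agent.TH435.WG.Schur

set_option autoImplicit false
open MeasureTheory ProbabilityTheory Matrix
open scoped ENNReal

namespace Pool.Agent.TH435.WG

theorem chol_build {n : ℕ} (S : Matrix (Fin (n + 1)) (Fin (n + 1)) ℝ) (hS : S.PosDef) :
    S = build (S 0 0) (fun j => S 0 j.succ / √(S 0 0))
      (Matrix.of fun i j => S i.succ j.succ -
        (S 0 i.succ / √(S 0 0)) * (S 0 j.succ / √(S 0 0))) := by
  have ht : 0 < S 0 0 := hS.diag_pos
  have hs : 0 < √(S 0 0) := Real.sqrt_pos.2 ht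
  have hsym : ∀ i j, S i j = S j i := by
    intro i j
    have := hS.1.apply i j
    rw [star_trivial] at this
    exact this.symm
  ext i j
  refine Fin.cases ?_ (fun i' => ?_) i <;> refine Fin.cases ?_ (fun j' => ?_) j
  · rfl
  · show S 0 j'.succ = √(S 0 0) * (S 0 j'.succ / √(S 0 0))
    field_simp
  · show S i'.succ 0 = √(S 0 0) * (S 0 i'.succ / √(S 0 0))
    rw [hsym]
    field_simp
  · show S i'.succ j'.succ = S i'.succ j'.succ - (S 0 i'.succ / √(S 0 0)) * (S 0 j'.succ / √(S 0 0))
      + (S 0 i'.succ / √(S 0 0)) * (S 0 j'.succ / √(S 0 0))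
    ring

theorem chol_holds : S_CHOL := by
  intro n
  induction n with
  | zero =>
    intro S _
    exact ⟨0, fun i => i.elim0, by ext i; exact i.elim0⟩
  | succ n ih =>
    intro S hS
    have ht : 0 < S 0 0 := hS.diag_pos
    have hst : √(S 0 0) * √(S 0 0) = S 0 0 := Real.mul_self_sqrt ht.le
    have hb := chol_build S hS
    set t := S 0 0
    set η : Fin n → ℝ := fun j => S 0 j.succ / √t
    set S' : Matrix (Fin n) (Fin n) ℝ := Matrix.of fun i j => S i.succ j.succ -
        (S 0 i.succ / √t) * (S 0 j.succ / √t)
    have hS' : S'.PosDef := by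
      rw [← sch_posDef ht η S', ← hb]
      exact hS
    obtain ⟨L', h1, h2⟩ := ih S' hS'
    refine ⟨Matrix.of (Fin.cons (Fin.cons √t fun _ => 0) fun i => Fin.cons (η i) (L' i)), ?_, ?_⟩
    · intro i j
      refine Fin.cases ?_ (fun i' => ?_) i <;> refine Fin.cases ?_ (fun j' => ?_) j
      · intro h
        exact absurd h (lt_irrefl _)
      · intro _
        rfl
      · intro h
        exact absurd h (Fin.not_lt_zero _)
      · intro h
        exact h1 i' j' (Fin.succ_lt_succ_iff.1 h)
    · rw [hb]
      ext i j
      rw [Matrix.mul_apply, Fin.sum_univ_succ]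
      refine Fin.cases ?_ (fun i' => ?_) i <;> refine Fin.cases ?_ (fun j' => ?_) j
      · simp only [build, Matrix.of_apply, Matrix.transpose_apply, Fin.cons_zero, Fin.cons_succ,
          mul_zero, Finset.sum_const_zero, add_zero]
        exact hst
      · simp only [build, Matrix.of_apply, Matrix.transpose_apply, Fin.cons_zero, Fin.cons_succ,
          zero_mul, Finset.sum_const_zero, add_zero]
      · simp only [build, Matrix.of_apply, Matrix.transpose_apply, Fin.cons_zero, Fin.cons_succ,
          mul_zero, Finset.sum_const_zero, add_zero]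
        ring
      · simp only [build, Matrix.of_apply, Matrix.transpose_apply, Fin.cons_zero, Fin.cons_succ]
        have h3 : ∑ k : Fin n, L' i' k * L' j' k = S' i' j' := by
          rw [← h2, Matrix.mul_apply]
          rfl
        rw [h3]
        ring

end Pool.Agent.TH435.WG
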