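import Pool.Agent.TH435.WG.Stmts

/-!
WG-FRAC: from integer powers to real powers (by helper73).
-/

set_option autoImplicit false
open MeasureTheory Set Filter
open scoped ENNReal

namespace Pool.Agent.TH435.WG

namespace FracX

/-- the kernel -/
noncomputable def gk (r u : ℝ) : ℝ := (1 - Real.exp (-u)) * u ^ (-1 - r)

lemma gk_nonneg {r u : ℝ} (hu : 0 ≤ u) : 0 ≤ gk r u := by
  unfold gk
  refine mul_nonneg ?_ (Real.rpow_nonneg hu _)
  have : Real.exp (-u) ≤ 1 := Real.exp_le_one_iff.2 (by linarith)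
  linarith

lemma gk_pos {r u : ℝ} (hu : 0 < u) : 0 < gk r u := by
  unfold gk
  refine mul_pos ?_ (Real.rpow_pos_of_pos hu _)
  have : Real.exp (-u) < 1 := (Real.exp_lt_exp.2 (by linarith : -u < 0)).trans_eq Real.exp_zero
  linarith

lemma gk_meas (r : ℝ) : Measurable (gk r) := by
  unfold gk
  exact (measurable_const.sub (Real.measurable_exp.comp measurable_neg)).mul
    (measurable_id.pow_const _)

lemma gk_int {r : ℝ} (h0 : 0 < r) (h1 : r < 1) : IntegrableOn (gk r) (Ioi 0) := by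
  rw [← Ioc_union_Ioi_eq_Ioi (zero_le_one' ℝ)]
  refine IntegrableOn.union ?_ ?_
  · have h2 : IntegrableOn (fun u : ℝ => u ^ (-r)) (Ioc 0 1) :=
      (intervalIntegral.intervalIntegrable_rpow' (by linarith)).1
    refine Integrable.mono' h2 (gk_meas r).aestronglyMeasurable ?_
    filter_upwards [ae_restrict_mem measurableSet_Ioc] with u hu
    rw [Real.norm_of_nonneg (gk_nonneg hu.1.le)]
    unfold gk
    have h3 : 1 - Real.exp (-u) ≤ u := by
      have := Real.add_one_le_exp (-u); linarith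
    calc (1 - Real.exp (-u)) * u ^ (-1 - r) ≤ u * u ^ (-1 - r) :=
          mul_le_mul_of_nonneg_right h3 (Real.rpow_nonneg hu.1.le _)
      _ = u ^ (-r) := by
          nth_rewrite 1 [← Real.rpow_one u]
          rw [← Real.rpow_add hu.1]; congr 1; ring
  · have h2 : IntegrableOn (fun u : ℝ => u ^ (-1 - r)) (Ioi 1) :=
      integrableOn_Ioi_rpow_of_lt (by linarith) one_pos
    refine Integrable.mono' h2 (gk_meas r).aestronglyMeasurable ?_
    filter_upwards [ae_restrict_mem measurableSet_Ioi] with u hu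
    have hu0 : 0 < u := lt_trans one_pos hu
    rw [Real.norm_of_nonneg (gk_nonneg hu0.le)]
    unfold gk
    have h3 : 1 - Real.exp (-u) ≤ 1 := by
      have := Real.exp_pos (-u); linarith
    calc (1 - Real.exp (-u)) * u ^ (-1 - r) ≤ 1 * u ^ (-1 - r) :=
          mul_le_mul_of_nonneg_right h3 (Real.rpow_nonneg hu0.le _)
      _ = _ := one_mul _

noncomputable def KK (r : ℝ) : ℝ≥0∞ := ∫⁻ u in Ioi (0:ℝ), ENNReal.ofReal (gk r u)

lemma KK_eq {r : ℝ} (h0 : 0 < r) (h1 : r < 1) : KK r = ENNReal.ofReal (∫ u in Ioi (0:ℝ), gk r u) := by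
  unfold KK
  rw [ofReal_integral_eq_lintegral_ofReal (gk_int h0 h1)]
  filter_upwards [ae_restrict_mem measurableSet_Ioi] with u hu
  exact gk_nonneg (le_of_lt hu)

lemma KK_ne_top {r : ℝ} (h0 : 0 < r) (h1 : r < 1) : KK r ≠ ⊤ := by
  rw [KK_eq h0 h1]; exact ENNReal.ofReal_ne_top

lemma KK_ne_zero (r : ℝ) : KK r ≠ 0 := by
  intro h
  unfold KK at h
  rw [lintegral_eq_zero_iff (gk_meas r).ennreal_ofReal] at h
  have h2 : ∀ᵐ u ∂(volume.restrict (Ioi (0:ℝ))), False := by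
    filter_upwards [h, ae_restrict_mem measurableSet_Ioi] with u hu hu0
    have h3 : ENNReal.ofReal (gk r u) = 0 := hu
    rw [ENNReal.ofReal_eq_zero] at h3
    exact absurd h3 (not_le.2 (gk_pos hu0))
  rw [ae_iff] at h2
  simp at h2

lemma gk_scale {r s : ℝ} (h0 : 0 < r) (h1 : r < 1) (hs : 0 < s) :
    ∫⁻ l in Ioi (0:ℝ), ENNReal.ofReal ((1 - Real.exp (-(l * s))) * l ^ (-1 - r)) =
      ENNReal.ofReal (s ^ r) * KK r := by
  have e1 : ∀ l ∈ Ioi (0:ℝ), (1 - Real.exp (-(l * s))) * l ^ (-1 - r) = s ^ (1 + r) * gk r (s * l) := by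
    intro l hl
    have hl0 : (0:ℝ) < l := hl
    unfold gk
    rw [Real.mul_rpow hs.le hl0.le, mul_comm l s]
    have : s ^ (1 + r) * s ^ (-1 - r) = 1 := by
      rw [← Real.rpow_add hs]; simp
    calc (1 - Real.exp (-(s * l))) * l ^ (-1 - r) =
          (s ^ (1 + r) * s ^ (-1 - r)) * ((1 - Real.exp (-(s * l))) * l ^ (-1 - r)) := by
            rw [this, one_mul]
      _ = _ := by ring
  rw [setLIntegral_congr_fun measurableSet_Ioi fun l hl => by rw [e1 l hl]]
  have hint : IntegrableOn (fun l => gk r (s * l)) (Ioi 0) := by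
    rw [integrableOn_Ioi_comp_mul_left_iff (gk r) 0 hs, mul_zero]
    exact gk_int h0 h1
  rw [← ofReal_integral_eq_lintegral_ofReal (hint.const_mul _), integral_const_mul,
    integral_comp_mul_left_Ioi (gk r) 0 hs, mul_zero, KK_eq h0 h1, ← ENNReal.ofReal_mul (by positivity)]
  · congr 1
    rw [smul_eq_mul, ← mul_assoc]
    congr 1
    rw [← Real.rpow_neg_one, ← Real.rpow_add hs]; congr 1; ring
  · filter_upwards [ae_restrict_mem measurableSet_Ioi] with l hl
    have hl0 : (0:ℝ) < l := hl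
    exact mul_nonneg (by positivity) (gk_nonneg (by positivity))

variable {Ω : Type} [MeasurableSpace Ω] {μ : Measure Ω} {s : Ω → ℝ} {V : Ω → ℝ≥0∞}

lemma meas1 (hs : Measurable s) (c : ℝ) (m : ℕ) :
    Measurable fun ω => ENNReal.ofReal (s ω ^ m * Real.exp (-(c * s ω))) := by
  fun_prop

lemma meas2 (hs : Measurable s) (hV : Measurable V) (c : ℝ) (m : ℕ) :
    Measurable fun ω => ENNReal.ofReal (s ω ^ m * Real.exp (-(c * s ω))) * V ω :=
  (meas1 hs c m).mul hV

lemma expand (hs : Measurable s) (hV : Measurable V) (hpos : ∀ᵐ ω ∂μ, 0 < s ω) (c0 l : ℝ) (hl : 0 ≤ l)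
    (m : ℕ) :
    ∫⁻ ω, ENNReal.ofReal (s ω ^ m * Real.exp (-(c0 * s ω))) * V ω ∂μ =
      ∑' j : ℕ, ENNReal.ofReal (l ^ j / (j.factorial : ℝ)) *
        ∫⁻ ω, ENNReal.ofReal (s ω ^ (m + j) * Real.exp (-((c0 + l) * s ω))) * V ω ∂μ := by
  have h1 : ∀ j : ℕ, ENNReal.ofReal (l ^ j / (j.factorial : ℝ)) *
        ∫⁻ ω, ENNReal.ofReal (s ω ^ (m + j) * Real.exp (-((c0 + l) * s ω))) * V ω ∂μ =
        ∫⁻ ω, ENNReal.ofReal (l ^ j / (j.factorial : ℝ)) *
          (ENNReal.ofReal (s ω ^ (m + j) * Real.exp (-((c0 + l) * s ω))) * V ω) ∂μ := by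
    intro j
    rw [lintegral_const_mul _ (meas2 hs hV _ _)]
  simp_rw [h1]
  rw [← lintegral_tsum fun j => ((meas2 hs hV _ _).const_mul _).aemeasurable]
  refine lintegral_congr_ae ?_
  filter_upwards [hpos] with ω hω
  have hexp : HasSum (fun j : ℕ => (l * s ω) ^ j / (j.factorial : ℝ)) (Real.exp (l * s ω)) := by
    rw [Real.exp_eq_exp_ℝ]
    exact NormedSpace.expSeries_div_hasSum_exp (l * s ω)
  have h2 := hexp.mul_left (s ω ^ m * Real.exp (-((c0 + l) * s ω)))
  have h3 : s ω ^ m * Real.exp (-((c0 + l) * s ω)) * Real.exp (l * s ω) =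
      s ω ^ m * Real.exp (-(c0 * s ω)) := by
    rw [mul_assoc, ← Real.exp_add]; congr 2; ring
  rw [h3] at h2
  have h4 : ∀ j : ℕ, ENNReal.ofReal (l ^ j / (j.factorial : ℝ)) *
      (ENNReal.ofReal (s ω ^ (m + j) * Real.exp (-((c0 + l) * s ω))) * V ω) =
      ENNReal.ofReal (s ω ^ m * Real.exp (-((c0 + l) * s ω)) * ((l * s ω) ^ j / (j.factorial : ℝ))) * V ω := by
    intro j
    rw [← mul_assoc, ← ENNReal.ofReal_mul (by positivity)]
    congr 2
    rw [mul_pow, pow_add]; ring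
  simp_rw [h4]
  rw [ENNReal.tsum_mul_right, ← ENNReal.ofReal_tsum_of_nonneg (fun j => by positivity) h2.summable,
    h2.tsum_eq]

lemma split (hs : Measurable s) (hV : Measurable V) (hpos : ∀ᵐ ω ∂μ, 0 < s ω) (c0 l : ℝ) (hl : 0 ≤ l)
    (m : ℕ) :
    (∫⁻ ω, ENNReal.ofReal (s ω ^ m * Real.exp (-(c0 * s ω)) * (1 - Real.exp (-(l * s ω)))) * V ω ∂μ) +
      (∫⁻ ω, ENNReal.ofReal (s ω ^ m * Real.exp (-((c0 + l) * s ω))) * V ω ∂μ) =
      ∫⁻ ω, ENNReal.ofReal (s ω ^ m * Real.exp (-(c0 * s ω))) * V ω ∂μ := by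
  rw [← lintegral_add_right _ (meas2 hs hV _ _)]
  refine lintegral_congr_ae ?_
  filter_upwards [hpos] with ω hω
  have h1 : Real.exp (-(l * s ω)) ≤ 1 := Real.exp_le_one_iff.2 (by
    have := mul_nonneg hl hω.le
    linarith)
  have h2 : 0 ≤ 1 - Real.exp (-(l * s ω)) := by linarith
  rw [← add_mul, ← ENNReal.ofReal_add (by positivity) (by positivity)]
  congr 2
  have h3 : Real.exp (-((c0 + l) * s ω)) = Real.exp (-(c0 * s ω)) * Real.exp (-(l * s ω)) := by
    rw [← Real.exp_add]; congr 1; ring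
  rw [h3]; ring

lemma frac_int [SFinite μ] (hs : Measurable s) (hV : Measurable V) (hpos : ∀ᵐ ω ∂μ, 0 < s ω)
    (c0 : ℝ) (m : ℕ) {r : ℝ} (h0 : 0 < r) (h1 : r < 1) :
    ∫⁻ l in Ioi (0:ℝ), (∫⁻ ω, ENNReal.ofReal (s ω ^ m * Real.exp (-(c0 * s ω)) *
        (1 - Real.exp (-(l * s ω)))) * V ω ∂μ) * ENNReal.ofReal (l ^ (-1 - r)) =
      KK r * ∫⁻ ω, ENNReal.ofReal (s ω ^ ((m : ℝ) + r) * Real.exp (-(c0 * s ω))) * V ω ∂μ := by
  have hm2 : Measurable (Function.uncurry fun (l : ℝ) (ω : Ω) =>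
      ENNReal.ofReal (s ω ^ m * Real.exp (-(c0 * s ω)) * (1 - Real.exp (-(l * s ω)))) * V ω *
        ENNReal.ofReal (l ^ (-1 - r))) := by
    unfold Function.uncurry
    refine ((Measurable.mul ?_ (hV.comp measurable_snd))).mul ?_
    · refine Measurable.ennreal_ofReal ?_
      have hs' : Measurable fun p : ℝ × Ω => s p.2 := hs.comp measurable_snd
      refine ((hs'.pow_const m).mul (Real.measurable_exp.comp (hs'.const_mul c0).neg)).mul
        (measurable_const.sub (Real.measurable_exp.comp ((measurable_fst.mul hs').neg)))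
    · exact (measurable_fst.pow_const _).ennreal_ofReal
  have e1 : ∀ l : ℝ, (∫⁻ ω, ENNReal.ofReal (s ω ^ m * Real.exp (-(c0 * s ω)) *
        (1 - Real.exp (-(l * s ω)))) * V ω ∂μ) * ENNReal.ofReal (l ^ (-1 - r)) =
      ∫⁻ ω, ENNReal.ofReal (s ω ^ m * Real.exp (-(c0 * s ω)) *
        (1 - Real.exp (-(l * s ω)))) * V ω * ENNReal.ofReal (l ^ (-1 - r)) ∂μ := by
    intro l
    rw [lintegral_mul_const' _ _ ENNReal.ofReal_ne_top]
  simp_rw [e1]
  rw [lintegral_lintegral_swap hm2.aemeasurable,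
    ← lintegral_const_mul' _ _ (KK_ne_top h0 h1)]
  refine lintegral_congr_ae ?_
  filter_upwards [hpos] with ω hω
  have e2 : ∀ l ∈ Ioi (0:ℝ), ENNReal.ofReal (s ω ^ m * Real.exp (-(c0 * s ω)) *
        (1 - Real.exp (-(l * s ω)))) * V ω * ENNReal.ofReal (l ^ (-1 - r)) =
      (ENNReal.ofReal (s ω ^ m * Real.exp (-(c0 * s ω))) * V ω) *
        ENNReal.ofReal ((1 - Real.exp (-(l * s ω))) * l ^ (-1 - r)) := by
    intro l hl
    have hl0 : (0:ℝ) < l := hl
    have h3 : 0 ≤ 1 - Real.exp (-(l * s ω)) := by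
      have : Real.exp (-(l * s ω)) ≤ 1 := Real.exp_le_one_iff.2 (by
        have := mul_pos hl0 hω
        linarith)
      linarith
    rw [ENNReal.ofReal_mul (by positivity), ENNReal.ofReal_mul h3]
    ring
  rw [setLIntegral_congr_fun measurableSet_Ioi e2]
  rw [lintegral_const_mul _ (by
    refine Measurable.ennreal_ofReal ?_
    exact (measurable_const.sub (Real.measurable_exp.comp (measurable_id.mul_const _).neg)).mul
      (measurable_id.pow_const _))]
  rw [gk_scale h0 h1 hω]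
  have e3 : s ω ^ ((m : ℝ) + r) * Real.exp (-(c0 * s ω)) =
      (s ω ^ m * Real.exp (-(c0 * s ω))) * s ω ^ r := by
    rw [Real.rpow_add hω, Real.rpow_natCast]; ring
  rw [e3, ENNReal.ofReal_mul (by positivity : 0 ≤ s ω ^ m * Real.exp (-(c0 * s ω)))]
  ring

end FracX

open FracX in
theorem frac_holds : S_FRAC := by
  intro Ω _ μ s U hμ hs hU hpos hbf haf ha0 hA c ν hc hν
  -- notation
  have hone : Measurable (fun _ : Ω => (1 : ℝ≥0∞)) := measurable_const
  let a : ℝ → ℕ → ℝ≥0∞ := fun c m => ∫⁻ ω, ENNReal.ofReal (s ω ^ m * Real.exp (-(c * s ω))) ∂μ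
  let b : ℝ → ℕ → ℝ≥0∞ := fun c m => ∫⁻ ω, ENNReal.ofReal (s ω ^ m * Real.exp (-(c * s ω))) * U ω ∂μ
  have hA' : ∀ (c : ℝ) (m : ℕ), 0 < c → b c m * a c (m + 1) ≤ b c (m + 1) * a c m := hA
  have haf' : ∀ (c : ℝ) (m : ℕ), 0 < c → a c m ≠ ⊤ := haf
  have hbf' : ∀ (c : ℝ) (m : ℕ), 0 < c → b c m ≠ ⊤ := hbf
  have ha0' : ∀ (c : ℝ) (m : ℕ), 0 < c → a c m ≠ 0 := ha0
  -- (1)
  have h1 : ∀ (c : ℝ) (m j : ℕ), 0 < c → b c m * a c (m + j) ≤ b c (m + j) * a c m := by
    intro c m j hc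
    induction j with
    | zero => simp
    | succ j ih =>
      have h2 := hA' c (m + j) hc
      have h3 : a c (m + j) * (b c m * a c (m + j + 1)) ≤ a c (m + j) * (b c (m + j + 1) * a c m) := by
        calc a c (m + j) * (b c m * a c (m + j + 1)) = (b c m * a c (m + j)) * a c (m + j + 1) := by ring
          _ ≤ (b c (m + j) * a c m) * a c (m + j + 1) := mul_le_mul' ih le_rfl
          _ = (b c (m + j) * a c (m + j + 1)) * a c m := by ring
          _ ≤ (b c (m + j + 1) * a c (m + j)) * a c m := mul_le_mul' h2 le_rfl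
          _ = _ := by ring
      exact (ENNReal.mul_le_mul_iff_right (ha0' c _ hc) (haf' c _ hc)).1 h3
  -- expansions
  have hae : ∀ (c0 l : ℝ) (m : ℕ), 0 ≤ l → a c0 m = ∑' j : ℕ, ENNReal.ofReal (l ^ j / (j.factorial : ℝ)) *
      a (c0 + l) (m + j) := by
    intro c0 l m hl
    have := expand (V := fun _ => 1) hs hone hpos c0 l hl m
    simpa only [mul_one] using this
  have hbe : ∀ (c0 l : ℝ) (m : ℕ), 0 ≤ l → b c0 m = ∑' j : ℕ, ENNReal.ofReal (l ^ j / (j.factorial : ℝ)) *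
      b (c0 + l) (m + j) := fun c0 l m hl => expand hs hU hpos c0 l hl m
  -- (B)
  have hB : ∀ (l : ℝ) (m : ℕ), 0 ≤ l → b (c + l) m * a c m ≤ a (c + l) m * b c m := by
    intro l m hl
    rw [hae c l m hl, hbe c l m hl, ← ENNReal.tsum_mul_left, ← ENNReal.tsum_mul_left]
    refine ENNReal.tsum_le_tsum fun j => ?_
    have := h1 (c + l) m j (by linarith)
    calc b (c + l) m * (ENNReal.ofReal (l ^ j / (j.factorial : ℝ)) * a (c + l) (m + j)) =
          ENNReal.ofReal (l ^ j / (j.factorial : ℝ)) * (b (c + l) m * a (c + l) (m + j)) := by ring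
      _ ≤ ENNReal.ofReal (l ^ j / (j.factorial : ℝ)) * (b (c + l) (m + j) * a (c + l) m) :=
          mul_le_mul' le_rfl this
      _ = _ := by ring
  -- integer and fractional part
  set m := ⌊ν⌋₊ with hm
  set r := ν - m with hr
  have hr0 : 0 ≤ r := by rw [hr]; have := Nat.floor_le hν; linarith
  have hr1 : r < 1 := by rw [hr]; have := Nat.lt_floor_add_one ν; linarith
  have hνr : ν = (m : ℝ) + r := by rw [hr]; ring
  have ha00 : a c 0 = ∫⁻ ω, ENNReal.ofReal (Real.exp (-(c * s ω))) ∂μ := by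
    simp only [a, pow_zero, one_mul]
  have hb00 : b c 0 = ∫⁻ ω, ENNReal.ofReal (Real.exp (-(c * s ω))) * U ω ∂μ := by
    simp only [b, pow_zero, one_mul]
  rw [← ha00, ← hb00]
  have h0m : b c 0 * a c m ≤ b c m * a c 0 := by
    have := h1 c 0 m hc
    rwa [zero_add] at this
  rcases hr0.eq_or_lt with hr0 | hr0
  · have e1 : ∀ ω, s ω ^ ν = s ω ^ m := by
      intro ω
      rw [hνr, ← hr0, add_zero, Real.rpow_natCast]
    simp_rw [e1]
    calc a c m * b c 0 = b c 0 * a c m := mul_comm _ _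
      _ ≤ _ := h0m
  · -- fractional case
    have hfrac : (∫⁻ ω, ENNReal.ofReal (s ω ^ ν * Real.exp (-(c * s ω))) ∂μ) * b c m ≤
        (∫⁻ ω, ENNReal.ofReal (s ω ^ ν * Real.exp (-(c * s ω))) * U ω ∂μ) * a c m := by
      have fa := frac_int (μ := μ) (V := fun _ => 1) hs hone hpos c m hr0 hr1
      have fb := frac_int (μ := μ) (V := U) hs hU hpos c m hr0 hr1
      rw [← hνr] at fa fb
      simp only [mul_one] at fa
      have hK0 := KK_ne_zero r
      have hK1 := KK_ne_top hr0 hr1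
      rw [← ENNReal.mul_le_mul_iff_right hK0 hK1, ← mul_assoc, ← mul_assoc, ← fa, ← fb,
        ← lintegral_mul_const' _ _ (hbf' c m hc), ← lintegral_mul_const' _ _ (haf' c m hc)]
      refine setLIntegral_mono' measurableSet_Ioi fun l hl => ?_
      have hl0 : (0:ℝ) < l := hl
      have sa := split (μ := μ) (V := fun _ => 1) hs hone hpos c l hl0.le m
      have sb := split (μ := μ) (V := U) hs hU hpos c l hl0.le m
      simp only [mul_one] at sa
      set p := ∫⁻ ω, ENNReal.ofReal (s ω ^ m * Real.exp (-(c * s ω)) * (1 - Real.exp (-(l * s ω)))) ∂μ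
      set q := ∫⁻ ω, ENNReal.ofReal (s ω ^ m * Real.exp (-(c * s ω)) * (1 - Real.exp (-(l * s ω)))) * U ω ∂μ
      have sa' : p + a (c + l) m = a c m := sa
      have sb' : q + b (c + l) m = b c m := sb
      have hpq : p * b c m ≤ q * a c m := by
        have h5 : p * b c m + a (c + l) m * b c m = q * a c m + b (c + l) m * a c m := by
          rw [← add_mul, ← add_mul, sa', sb', mul_comm]
        have h6 : p * b c m + a (c + l) m * b c m ≤ q * a c m + a (c + l) m * b c m := by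
          rw [h5]; exact add_le_add le_rfl (hB l m hl0.le)
        have h7 : a (c + l) m * b c m ≠ ⊤ :=
          ENNReal.mul_ne_top (haf' _ _ (by linarith)) (hbf' _ _ hc)
        exact (ENNReal.add_le_add_iff_right h7).1 h6
      calc p * ENNReal.ofReal (l ^ (-1 - r)) * b c m = (p * b c m) * ENNReal.ofReal (l ^ (-1 - r)) := by ring
        _ ≤ (q * a c m) * ENNReal.ofReal (l ^ (-1 - r)) := mul_le_mul' hpq le_rfl
        _ = _ := by ring
    have h8 : a c m * ((∫⁻ ω, ENNReal.ofReal (s ω ^ ν * Real.exp (-(c * s ω))) ∂μ) * b c 0) ≤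
        a c m * ((∫⁻ ω, ENNReal.ofReal (s ω ^ ν * Real.exp (-(c * s ω))) * U ω ∂μ) * a c 0) := by
      calc a c m * ((∫⁻ ω, ENNReal.ofReal (s ω ^ ν * Real.exp (-(c * s ω))) ∂μ) * b c 0) =
            (∫⁻ ω, ENNReal.ofReal (s ω ^ ν * Real.exp (-(c * s ω))) ∂μ) * (b c 0 * a c m) := by ring
        _ ≤ (∫⁻ ω, ENNReal.ofReal (s ω ^ ν * Real.exp (-(c * s ω))) ∂μ) * (b c m * a c 0) :=
            mul_le_mul' le_rfl h0m
        _ = ((∫⁻ ω, ENNReal.ofReal (s ω ^ ν * Real.exp (-(c * s ω))) ∂μ) * b c m) * a c 0 := by ring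
        _ ≤ ((∫⁻ ω, ENNReal.ofReal (s ω ^ ν * Real.exp (-(c * s ω))) * U ω ∂μ) * a c m) * a c 0 :=
            mul_le_mul' hfrac le_rfl
        _ = _ := by ring
    exact (ENNReal.mul_le_mul_iff_right (ha0' c m hc) (haf' c m hc)).1 h8

end Pool.Agent.TH435.WG
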