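import Pool.Agent.TH435.WG.Stmts

set_option autoImplicit false
open MeasureTheory ProbabilityTheory Matrix
open scoped ENNReal

namespace Pool.Agent.TH435.WG

/-- indexing the pairs of `Fin (n+1)` -/
def glIx (n : ℕ) : Unit ⊕ (Fin n ⊕ Sym2 (Fin n)) → Sym2 (Fin (n + 1))
  | Sum.inl _ => s(0, 0)
  | Sum.inr (Sum.inl i) => s(0, i.succ)
  | Sum.inr (Sum.inr z) => z.map Fin.succ

theorem glIx_bij (n : ℕ) : Function.Bijective (glIx n) := by
  constructor
  · rintro (⟨⟩ | i | z) (⟨⟩ | i' | z') h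
    · rfl
    · simp [glIx, Fin.succ_ne_zero, (Fin.succ_ne_zero _).symm] at h
    · induction z' using Sym2.ind with
      | _ a b => simp [glIx, (Fin.succ_ne_zero _).symm] at h
    · simp [glIx, Fin.succ_ne_zero, (Fin.succ_ne_zero _).symm] at h
    · simp [glIx, Fin.succ_ne_zero, (Fin.succ_ne_zero _).symm] at h
      rw [h]
    · induction z' using Sym2.ind with
      | _ a b => simp [glIx, (Fin.succ_ne_zero _).symm] at h
    · induction z using Sym2.ind with
      | _ a b => simp [glIx, Fin.succ_ne_zero] at h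
    · induction z using Sym2.ind with
      | _ a b => simp [glIx, Fin.succ_ne_zero] at h
    · congr 2
      exact Sym2.map.injective (Fin.succ_injective n) h
  · intro w
    induction w using Sym2.ind with
    | _ a b =>
      refine Fin.cases ?_ (fun a' => ?_) a <;> refine Fin.cases ?_ (fun b' => ?_) b
      · exact ⟨Sum.inl (), rfl⟩
      · exact ⟨Sum.inr (Sum.inl b'), rfl⟩
      · exact ⟨Sum.inr (Sum.inl a'), Sym2.eq_swap⟩
      · exact ⟨Sum.inr (Sum.inr s(a', b')), rfl⟩

theorem glue_zero {n : ℕ} (t : ℝ) (v : Fin n → ℝ) (z : Sym2 (Fin n) → ℝ) :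
    glue t v z s(0, 0) = t := rfl

theorem glue_one {n : ℕ} (t : ℝ) (v : Fin n → ℝ) (z : Sym2 (Fin n) → ℝ) (i : Fin n) :
    glue t v z s(0, i.succ) = v i := rfl

theorem glue_two {n : ℕ} (t : ℝ) (v : Fin n → ℝ) (z : Sym2 (Fin n) → ℝ) (w : Sym2 (Fin n)) :
    glue t v z (w.map Fin.succ) = z w := by
  induction w using Sym2.ind with
  | _ a b => rfl

theorem glue_holds : S_GLUE := by
  intro n
  have hmeas : Measurable
      (fun q : ℝ × ((Fin n → ℝ) × (Sym2 (Fin n) → ℝ)) => glue q.1 q.2.1 q.2.2) := by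
    rw [measurable_pi_iff]
    intro w
    obtain ⟨w', rfl⟩ := (glIx_bij n).2 w
    rcases w' with ⟨⟩ | i | z
    · exact measurable_fst
    · exact (measurable_pi_apply i).comp (measurable_fst.comp measurable_snd)
    · have : (fun q : ℝ × ((Fin n → ℝ) × (Sym2 (Fin n) → ℝ)) =>
          glue q.1 q.2.1 q.2.2 (glIx n (Sum.inr (Sum.inr z)))) = fun q => q.2.2 z := by
        funext q
        exact glue_two _ _ _ z
      rw [this]
      exact (measurable_pi_apply z).comp (measurable_snd.comp measurable_snd)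
  refine ⟨hmeas, ?_⟩
  symm
  rw [volume_pi]
  refine Measure.pi_eq fun s hs => ?_
  rw [Measure.map_apply hmeas (MeasurableSet.univ_pi hs)]
  have hpre : (fun q : ℝ × ((Fin n → ℝ) × (Sym2 (Fin n) → ℝ)) => glue q.1 q.2.1 q.2.2) ⁻¹'
      (Set.univ.pi s) = s s(0, 0) ×ˢ ((Set.univ.pi fun i : Fin n => s s(0, i.succ)) ×ˢ
        (Set.univ.pi fun z : Sym2 (Fin n) => s (z.map Fin.succ))) := by
    ext q
    rw [Set.mem_preimage, Set.mem_univ_pi, (glIx_bij n).2.forall, Set.mem_prod, Set.mem_prod,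
      Set.mem_univ_pi, Set.mem_univ_pi]
    constructor
    · intro h
      refine ⟨h (Sum.inl ()), fun i => h (Sum.inr (Sum.inl i)), fun z => ?_⟩
      have h2 := h (Sum.inr (Sum.inr z))
      have h3 : glue q.1 q.2.1 q.2.2 (z.map Fin.succ) ∈ s (z.map Fin.succ) := h2
      rwa [glue_two] at h3
    · rintro ⟨h1, h2, h3⟩ (⟨⟩ | i | z)
      · exact h1
      · exact h2 i
      · show glue q.1 q.2.1 q.2.2 (z.map Fin.succ) ∈ s (z.map Fin.succ)
        rw [glue_two]
        exact h3 z
  rw [hpre, Measure.prod_prod, Measure.prod_prod, volume_pi_pi, volume_pi_pi,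
    ← (glIx_bij n).prod_comp, Fintype.prod_sum_type, Fintype.prod_sum_type]
  simp [glIx]

end Pool.Agent.TH435.WG
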