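import Pool.Agent.TH435.WG.Int

set_option autoImplicit false
open MeasureTheory ProbabilityTheory Matrix
open scoped ENNReal

namespace Pool.Agent.TH435.WG

namespace Ibx

theorem ss_nonneg' {j : ℕ} {ω : (Fin j → ℝ) × ℝ} (h : 0 < ω.2) : 0 ≤ ss ω := by
  unfold ss dotProduct
  have : 0 ≤ ∑ i, ω.1 i * ω.1 i := Finset.sum_nonneg fun i _ => mul_self_nonneg _
  linarith

theorem poly_mono {j : ℕ} {f : (Fin j → ℝ) × ℝ → ℝ} (hf : Poly f) :
    ∃ (C : ℝ) (N : ℕ), 0 ≤ C ∧ ∀ ω : (Fin j → ℝ) × ℝ, 0 < ω.2 → |f ω| ≤ C * (1 + ss ω) ^ N := by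
  obtain ⟨C, N, h⟩ := hf
  refine ⟨|C|, N, abs_nonneg _, fun ω hω => (h ω hω).trans ?_⟩
  have := ss_nonneg' hω
  exact mul_le_mul_of_nonneg_right (le_abs_self C) (by positivity)

theorem poly_mul {j : ℕ} {f g : (Fin j → ℝ) × ℝ → ℝ} (hf : Poly f) (hg : Poly g) :
    Poly fun ω => f ω * g ω := by
  obtain ⟨C, N, hC0, hC⟩ := poly_mono hf
  obtain ⟨D, M, hD0, hD⟩ := poly_mono hg
  refine ⟨C * D, N + M, fun ω hω => ?_⟩
  have := ss_nonneg' hω
  rw [abs_mul, pow_add]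
  calc |f ω| * |g ω| ≤ (C * (1 + ss ω) ^ N) * (D * (1 + ss ω) ^ M) := by
        gcongr
        · exact hC ω hω
        · exact hD ω hω
    _ = _ := by ring

theorem poly_add {j : ℕ} {f g : (Fin j → ℝ) × ℝ → ℝ} (hf : Poly f) (hg : Poly g) :
    Poly fun ω => f ω + g ω := by
  obtain ⟨C, N, hC0, hC⟩ := poly_mono hf
  obtain ⟨D, M, hD0, hD⟩ := poly_mono hg
  refine ⟨C + D, N + M, fun ω hω => ?_⟩
  have hs := ss_nonneg' hω
  have h1 : (1 : ℝ) ≤ (1 + ss ω) ^ N := one_le_pow₀ (by linarith)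
  have h2 : (1 : ℝ) ≤ (1 + ss ω) ^ M := one_le_pow₀ (by linarith)
  rw [pow_add]
  have e1 := hC ω hω
  have e2 := hD ω hω
  refine (abs_add_le _ _).trans ((add_le_add e1 e2).trans ?_)
  have e3 : C * (1 + ss ω) ^ N ≤ C * ((1 + ss ω) ^ N * (1 + ss ω) ^ M) := by
    refine mul_le_mul_of_nonneg_left ?_ hC0
    exact le_mul_of_one_le_right (by positivity) h2
  have e4 : D * (1 + ss ω) ^ M ≤ D * ((1 + ss ω) ^ N * (1 + ss ω) ^ M) := by
    refine mul_le_mul_of_nonneg_left ?_ hD0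
    exact le_mul_of_one_le_left (by positivity) h1
  linarith

theorem poly_const {j : ℕ} (a : ℝ) : Poly (j := j) fun _ => a :=
  ⟨|a|, 0, fun ω _ => by simp⟩

theorem poly_snd {j : ℕ} : Poly (j := j) fun ω => ω.2 := by
  refine ⟨1, 1, fun ω hω => ?_⟩
  rw [abs_of_pos hω]
  have : 0 ≤ ω.1 ⬝ᵥ ω.1 := by
    unfold dotProduct
    exact Finset.sum_nonneg fun i _ => mul_self_nonneg _
  unfold ss
  linarith

theorem poly_coord {j : ℕ} (i : Fin j) : Poly (j := j) fun ω => ω.1 i := by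
  refine ⟨1, 1, fun ω hω => ?_⟩
  have h : ω.1 i * ω.1 i ≤ ω.1 ⬝ᵥ ω.1 := by
    unfold dotProduct
    exact Finset.single_le_sum (f := fun i => ω.1 i * ω.1 i) (fun i _ => mul_self_nonneg _)
      (Finset.mem_univ i)
  unfold ss
  have h2 : |ω.1 i| ≤ 1 + ω.1 i * ω.1 i := by
    have := abs_mul_abs_self (ω.1 i)
    nlinarith [sq_nonneg (|ω.1 i| - 1), abs_nonneg (ω.1 i)]
  linarith

theorem deriv_dens {j : ℕ} (δ c : ℝ) (i : Fin j) (ξ : Fin j → ℝ) (y : ℝ) :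
    HasDerivAt (fun t : ℝ => Int.dens j δ c (ξ + t • Pi.single i 1, y))
      (Int.dens j δ c (ξ, y) * (-(2 * c * ξ i))) 0 := by
  have h0 : ∀ t : ℝ, (ξ + t • Pi.single i 1) ⬝ᵥ (ξ + t • Pi.single i 1) =
      ξ ⬝ᵥ ξ + 2 * ξ i * t + t ^ 2 := by
    intro t
    simp only [add_dotProduct, dotProduct_add, smul_dotProduct, dotProduct_smul,
      dotProduct_single, single_dotProduct, Pi.single_eq_same, smul_eq_mul, Pi.add_apply,
      Pi.smul_apply]
    ring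
  unfold Int.dens
  simp only [h0]
  have h1 : HasDerivAt (fun t : ℝ => -(c * (ξ ⬝ᵥ ξ + 2 * ξ i * t + t ^ 2 + y)))
      (-(c * (2 * ξ i))) 0 := by
    have a1 : HasDerivAt (fun t : ℝ => ξ ⬝ᵥ ξ + 2 * ξ i * t + t ^ 2 + y) (2 * ξ i) 0 := by
      have a2 := (((hasDerivAt_id' (0 : ℝ)).const_mul (2 * ξ i)).const_add (ξ ⬝ᵥ ξ)).fun_add
        ((hasDerivAt_pow 2 (0 : ℝ)))
      exact (a2.add_const y).congr_deriv (by simp)
    exact (a1.const_mul c).fun_neg
  exact ((h1.exp).mul_const (y ^ (δ / 2 - 1))).congr_deriv (by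
    simp only [mul_zero, add_zero, ne_eq, OfNat.ofNat_ne_zero, not_false_eq_true, zero_pow]
    ring)

theorem slice (j : ℕ) {δ c : ℝ} (i : Fin j) (f f' : (Fin j → ℝ) × ℝ → ℝ) (y : ℝ)
    (hd : ∀ ξ : Fin j → ℝ, HasDerivAt (fun t : ℝ => f (ξ + t • Pi.single i 1, y)) (f' (ξ, y)) 0)
    (hi1 : Integrable (fun ξ : Fin j → ℝ => Int.dens j δ c (ξ, y) * f (ξ, y)))
    (hi2 : Integrable (fun ξ : Fin j → ℝ => Int.dens j δ c (ξ, y) *
      (f' (ξ, y) - 2 * c * ξ i * f (ξ, y)))) :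
    ∫ ξ : Fin j → ℝ, Int.dens j δ c (ξ, y) * (f' (ξ, y) - 2 * c * ξ i * f (ξ, y)) = 0 := by
  have h := integral_bilinear_hasLineDerivAt_right_eq_neg_left_of_integrable
    (μ := (volume : Measure (Fin j → ℝ))) (f := fun _ => (1 : ℝ)) (f' := fun _ => (0 : ℝ))
    (g := fun ξ => Int.dens j δ c (ξ, y) * f (ξ, y))
    (g' := fun ξ => Int.dens j δ c (ξ, y) * (f' (ξ, y) - 2 * c * ξ i * f (ξ, y)))
    (v := Pi.single i 1) (B := ContinuousLinearMap.mul ℝ ℝ)
    (by simp) (by simpa using hi2) (by simpa using hi1)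
    (fun x _ => by
      show HasDerivAt (fun t : ℝ => (1 : ℝ)) 0 0
      exact hasDerivAt_const _ _)
    (fun x _ => by
      show HasDerivAt (fun t : ℝ => Int.dens j δ c (x + t • Pi.single i 1, y) *
        f (x + t • Pi.single i 1, y)) _ 0
      exact ((deriv_dens δ c i x y).fun_mul (hd x)).congr_deriv (by
        simp only [zero_smul, add_zero]
        ring))
  simpa using h

end Ibx

open Ibx in
theorem ibx_holds (_hI : S_INT) : S_IBX := by
  intro j δ c hδ hc i f f' hf hf' hp hp' hd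
  have hmi : Measurable (fun ω : (Fin j → ℝ) × ℝ => ω.1 i) :=
    (measurable_pi_apply i).comp measurable_fst
  have hpoly : Poly (fun ω : (Fin j → ℝ) × ℝ => f' ω - 2 * c * ω.1 i * f ω) := by
    have h1 := poly_add hp' (poly_mul (poly_const (-(2 * c))) (poly_mul (poly_coord i) hp))
    convert h1 using 2
    ring
  have hmeas : Measurable (fun ω : (Fin j → ℝ) × ℝ => f' ω - 2 * c * ω.1 i * f ω) :=
    hf'.sub ((hmi.const_mul (2 * c)).mul hf)
  have hint := Int.base_int j hδ hc _ hmeas hpoly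
  have hint0 := Int.base_int j hδ hc _ hf hp
  rw [Int.integral_mu]
  unfold Int.base at hint hint0 ⊢
  rw [integral_prod_symm _ hint]
  have hz : ∀ᵐ y ∂((volume : Measure ℝ).restrict (Set.Ioi 0)),
      ∫ ξ : Fin j → ℝ, Int.dens j δ c (ξ, y) * (f' (ξ, y) - 2 * c * (ξ, y).1 i * f (ξ, y)) = 0 := by
    filter_upwards [ae_restrict_mem measurableSet_Ioi, hint.prod_left_ae, hint0.prod_left_ae]
      with y hy h1 h2
    exact slice j i f f' y (fun ξ => hd ξ y hy) h2 h1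
  rw [integral_congr_ae hz]
  simp

end Pool.Agent.TH435.WG
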