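import Pool.Agent.TH435.WG.Stmts

set_option autoImplicit false
open MeasureTheory ProbabilityTheory Matrix
open scoped ENNReal

namespace Pool.Agent.TH435.WG

namespace Int

/-- The base measure. -/
noncomputable def base (j : ℕ) : Measure ((Fin j → ℝ) × ℝ) :=
  (volume : Measure (Fin j → ℝ)).prod ((volume : Measure ℝ).restrict (Set.Ioi 0))

/-- The density of `mu`. -/
noncomputable def dens (j : ℕ) (δ c : ℝ) (ω : (Fin j → ℝ) × ℝ) : ℝ :=
  Real.exp (-(c * (ω.1 ⬝ᵥ ω.1 + ω.2))) * ω.2 ^ (δ / 2 - 1)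

instance (j : ℕ) : SFinite (base j) := by unfold base; infer_instance

theorem measurable_dot {j : ℕ} : Measurable (fun ω : (Fin j → ℝ) × ℝ => ω.1 ⬝ᵥ ω.1) := by
  unfold dotProduct
  exact Finset.measurable_sum _ fun i _ =>
    ((measurable_pi_apply i).comp measurable_fst).mul ((measurable_pi_apply i).comp measurable_fst)

theorem measurable_ss {j : ℕ} : Measurable (ss (j := j)) :=
  measurable_dot.add measurable_snd

theorem measurable_dens (j : ℕ) (δ c : ℝ) : Measurable (dens j δ c) := by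
  unfold dens
  exact (Real.measurable_exp.comp ((measurable_dot.add measurable_snd).const_mul c).neg).mul
    (measurable_snd.pow_const _)

theorem mu_eq (j : ℕ) (δ c : ℝ) :
    mu j δ c = (base j).withDensity fun ω => ENNReal.ofReal (dens j δ c ω) := rfl

theorem ae_pos (j : ℕ) : ∀ᵐ ω ∂(base j), (0 : ℝ) < ω.2 := by
  have h : ∀ᵐ y ∂((volume : Measure ℝ).restrict (Set.Ioi 0)), (0 : ℝ) < y :=
    ae_restrict_mem measurableSet_Ioi
  exact (Measure.quasiMeasurePreserving_snd (μ := (volume : Measure (Fin j → ℝ)))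
    (ν := (volume : Measure ℝ).restrict (Set.Ioi 0))).ae h

theorem dens_nonneg {j : ℕ} {δ c : ℝ} {ω : (Fin j → ℝ) × ℝ} (h : 0 < ω.2) :
    0 ≤ dens j δ c ω := by
  unfold dens; positivity

theorem integrable_mu_iff (j : ℕ) (δ c : ℝ) (f : (Fin j → ℝ) × ℝ → ℝ) :
    Integrable f (mu j δ c) ↔ Integrable (fun ω => dens j δ c ω * f ω) (base j) := by
  rw [mu_eq, integrable_withDensity_iff_integrable_smul' (measurable_dens j δ c).ennreal_ofReal
    (Filter.Eventually.of_forall fun _ => ENNReal.ofReal_lt_top)]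
  refine integrable_congr ?_
  filter_upwards [ae_pos j] with ω h
  rw [ENNReal.toReal_ofReal (dens_nonneg h), smul_eq_mul]

theorem integral_mu (j : ℕ) (δ c : ℝ) (f : (Fin j → ℝ) × ℝ → ℝ) :
    ∫ ω, f ω ∂(mu j δ c) = ∫ ω, dens j δ c ω * f ω ∂(base j) := by
  rw [mu_eq, integral_withDensity_eq_integral_toReal_smul (measurable_dens j δ c).ennreal_ofReal
    (Filter.Eventually.of_forall fun _ => ENNReal.ofReal_lt_top)]
  refine integral_congr_ae ?_
  filter_upwards [ae_pos j] with ω h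
  rw [ENNReal.toReal_ofReal (dens_nonneg h), smul_eq_mul]

theorem integrable_gauss (j : ℕ) {b : ℝ} (hb : 0 < b) :
    Integrable (fun ξ : Fin j → ℝ => Real.exp (-(b * (ξ ⬝ᵥ ξ)))) volume := by
  have h := Integrable.fintype_prod (ι := Fin j) (E := ℝ)
    (f := fun _ (x : ℝ) => Real.exp (-b * x ^ 2))
    (μ := fun _ => (volume : Measure ℝ)) (by intro _; exact integrable_exp_neg_mul_sq hb)
  refine h.congr (Filter.Eventually.of_forall fun ξ => ?_)
  simp only
  rw [← Real.exp_sum]
  congr 1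
  unfold dotProduct
  rw [Finset.mul_sum, ← Finset.sum_neg_distrib]
  exact Finset.sum_congr rfl fun i _ => by ring

theorem integrable_gamma {δ b : ℝ} (hδ : 0 < δ) (hb : 0 < b) :
    Integrable (fun y : ℝ => Real.exp (-(b * y)) * y ^ (δ / 2 - 1))
      ((volume : Measure ℝ).restrict (Set.Ioi 0)) := by
  have h := integrableOn_rpow_mul_exp_neg_mul_rpow (p := 1) (s := δ / 2 - 1) (b := b)
    (by linarith) one_pos hb
  refine h.congr (Filter.Eventually.of_forall fun y => ?_)
  simp only [Real.rpow_one]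
  rw [mul_comm]
  ring_nf

theorem dens_integrable (j : ℕ) {δ c : ℝ} (hδ : 0 < δ) (hc : 0 < c) :
    Integrable (dens j δ c) (base j) := by
  have h := (integrable_gauss j hc).mul_prod (integrable_gamma hδ hc)
  refine h.congr (Filter.Eventually.of_forall fun ω => ?_)
  simp only
  unfold dens
  rw [← mul_assoc, ← Real.exp_add]
  congr 2
  ring

theorem pow_le_exp {c : ℝ} (hc : 0 < c) (N : ℕ) {s : ℝ} (hs : 0 ≤ s) :
    (1 + s) ^ N ≤ ((N.factorial : ℝ) * (c / 2)⁻¹ ^ N * Real.exp (c / 2)) *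
      Real.exp (c / 2 * s) := by
  have h := Real.pow_div_factorial_le_exp (c / 2 * (1 + s)) (by positivity) N
  rw [div_le_iff₀ (by positivity)] at h
  have h2 : (1 + s) ^ N = (c / 2)⁻¹ ^ N * (c / 2 * (1 + s)) ^ N := by
    rw [← mul_pow, ← mul_assoc, inv_mul_cancel₀ (by positivity), one_mul]
  rw [h2]
  calc (c / 2)⁻¹ ^ N * (c / 2 * (1 + s)) ^ N
      ≤ (c / 2)⁻¹ ^ N * (Real.exp (c / 2 * (1 + s)) * N.factorial) := by gcongr
    _ = _ := by
      rw [mul_add, mul_one, Real.exp_add]; ring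

/-- Integrability with respect to the base measure. -/
theorem base_int (j : ℕ) {δ c : ℝ} (hδ : 0 < δ) (hc : 0 < c) (f : (Fin j → ℝ) × ℝ → ℝ)
    (hf : Measurable f) (hp : Poly f) : Integrable (fun ω => dens j δ c ω * f ω) (base j) := by
  obtain ⟨C, N, hC⟩ := hp
  have h1 := (dens_integrable j hδ (half_pos hc)).const_mul
    (|C| * ((N.factorial : ℝ) * (c / 2)⁻¹ ^ N * Real.exp (c / 2)))
  refine h1.mono' ((measurable_dens j δ c).mul hf).aestronglyMeasurable ?_
  filter_upwards [ae_pos j] with ω h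
  have hd := dens_nonneg (δ := δ) (c := c) h
  have hs : 0 ≤ ω.1 ⬝ᵥ ω.1 := by
    unfold dotProduct
    exact Finset.sum_nonneg fun i _ => mul_self_nonneg _
  have hs' : 0 ≤ ss ω := by unfold ss; linarith
  rw [norm_mul, Real.norm_of_nonneg hd, Real.norm_eq_abs]
  have h2 : |f ω| ≤ |C| * (((N.factorial : ℝ) * (c / 2)⁻¹ ^ N * Real.exp (c / 2)) *
      Real.exp (c / 2 * ss ω)) := by
    refine (hC ω h).trans ?_
    refine (mul_le_mul_of_nonneg_right (le_abs_self C) (by positivity)).trans ?_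
    exact mul_le_mul_of_nonneg_left (pow_le_exp hc N hs') (abs_nonneg _)
  refine (mul_le_mul_of_nonneg_left h2 hd).trans (le_of_eq ?_)
  have h3 : dens j δ c ω * Real.exp (c / 2 * ss ω) = dens j δ (c / 2) ω := by
    unfold dens ss
    rw [mul_assoc, mul_comm (ω.2 ^ (δ / 2 - 1)), ← mul_assoc, ← Real.exp_add]
    congr 2
    ring
  rw [← h3]
  ring

end Int

theorem int_holds : S_INT := by
  intro j δ c hδ hc f hf hp
  rw [Int.integrable_mu_iff]
  exact Int.base_int j hδ hc f hf hp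

end Pool.Agent.TH435.WG
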