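import Pool.Agent.TH435.WG.Pd

/-! Job WG-MOM (helper263): finite moments of the trace under `BW n a`. -/

set_option autoImplicit false
open MeasureTheory ProbabilityTheory Matrix
open scoped ENNReal

namespace Pool.Agent.TH435.WG

/-- the integral of a product of functions of different coordinates -/
theorem lintegral_pi_prod_wg {ι : Type*} [Fintype ι] {Ω : ι → Type*} [∀ i, MeasurableSpace (Ω i)]
    (P : ∀ i, Measure (Ω i)) [∀ i, IsProbabilityMeasure (P i)] (f : ∀ i, Ω i → ℝ≥0∞)
    (hf : ∀ i, Measurable (f i)) :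
    ∫⁻ ω, ∏ i, f i (ω i) ∂(Measure.pi P) = ∏ i, ∫⁻ x, f i x ∂(P i) := by
  have h := iIndepFun_pi (μ := P) (X := f) (fun i => (hf i).aemeasurable)
  rw [lintegral_prod_eq_prod_lintegral_of_indepFun Finset.univ _ h
    (fun i => (hf i).comp (measurable_pi_apply i))]
  refine Finset.prod_congr rfl fun i _ => ?_
  exact (measurePreserving_eval P i).lintegral_comp (hf i)

theorem trace_build {n : ℕ} (t : ℝ) (η : Fin n → ℝ) (S : Matrix (Fin n) (Fin n) ℝ) :
    (build t η S).trace = t + η ⬝ᵥ η + S.trace := by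
  simp only [Matrix.trace, build, diag_apply, of_apply, Fin.sum_univ_succ, Fin.cons_zero,
    Fin.cons_succ, Finset.sum_add_distrib, dotProduct]
  ring

theorem chi_exp_ne_top {a : ℝ} (ha : 0 < a) :
    ∫⁻ t, ENNReal.ofReal (Real.exp (t / 4)) ∂(chi a) ≠ ⊤ := by
  unfold chi gammaMeasure
  have hm : Measurable (gammaPDF (a / 2) (1 / 2)) := by
    unfold gammaPDF
    exact (measurable_gammaPDFReal _ _).ennreal_ofReal
  rw [lintegral_withDensity_eq_lintegral_mul _ hm (by fun_prop)]
  have hfin : ∫⁻ t, gammaPDF (a / 2) (1 / 4) t = 1 :=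
    lintegral_gammaPDF_eq_one (by linarith) (by norm_num)
  have hG : (0 : ℝ) < Real.Gamma (a / 2) := Real.Gamma_pos_of_pos (by linarith)
  have hle : ∀ t : ℝ, (gammaPDF (a / 2) (1 / 2) * fun t => ENNReal.ofReal (Real.exp (t / 4))) t =
      ENNReal.ofReal ((2 : ℝ) ^ (a / 2)) * gammaPDF (a / 2) (1 / 4) t := by
    intro t
    simp only [Pi.mul_apply, gammaPDF, gammaPDFReal]
    rw [← ENNReal.ofReal_mul', ← ENNReal.ofReal_mul]
    · split_ifs with h
      · congr 1
        have e1 : Real.exp (-(1 / 2 * t)) * Real.exp (t / 4) = Real.exp (-(1 / 4 * t)) := by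
          rw [← Real.exp_add]; congr 1; ring
        have e2 : (1 / 2 : ℝ) ^ (a / 2) = 2 ^ (a / 2) * (1 / 4) ^ (a / 2) := by
          rw [← Real.mul_rpow (by norm_num) (by norm_num)]; norm_num
        rw [mul_assoc, e1, e2]; ring
      · simp
    · positivity
    · positivity
  rw [lintegral_congr hle, lintegral_const_mul' _ _ ENNReal.ofReal_ne_top, hfin]
  simp

theorem gauss_exp_ne_top (n : ℕ) :
    ∫⁻ η, ENNReal.ofReal (Real.exp ((η ⬝ᵥ η) / 4)) ∂(gauss n) ≠ ⊤ := by
  have h1 : ∫⁻ x, ENNReal.ofReal (Real.exp (x ^ 2 / 4)) ∂(gaussianReal 0 1) ≠ ⊤ := by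
    rw [gaussianReal_of_var_ne_zero _ one_ne_zero,
      lintegral_withDensity_eq_lintegral_mul _ (by fun_prop) (by fun_prop)]
    have hle : ∀ x : ℝ, (gaussianPDF 0 1 * fun x => ENNReal.ofReal (Real.exp (x ^ 2 / 4))) x =
        ENNReal.ofReal (Real.sqrt 2) * gaussianPDF 0 2 x := by
      intro x
      simp only [Pi.mul_apply, gaussianPDF, gaussianPDFReal]
      rw [← ENNReal.ofReal_mul (by positivity), ← ENNReal.ofReal_mul (by positivity)]
      congr 1
      have e1 : Real.exp (-(x - 0) ^ 2 / (2 * ((1 : NNReal) : ℝ))) * Real.exp (x ^ 2 / 4) =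
          Real.exp (-(x - 0) ^ 2 / (2 * ((2 : NNReal) : ℝ))) := by
        rw [← Real.exp_add]; congr 1; push_cast; ring
      rw [mul_assoc, e1]
      have e2 : (√(2 * Real.pi * ((1 : NNReal) : ℝ)))⁻¹ =
          √2 * (√(2 * Real.pi * ((2 : NNReal) : ℝ)))⁻¹ := by
        rw [NNReal.coe_one, NNReal.coe_ofNat, mul_one, Real.sqrt_mul (x := 2 * Real.pi)
          (by positivity) 2]
        field_simp
      rw [e2]; ring
    rw [lintegral_congr hle, lintegral_const_mul' _ _ ENNReal.ofReal_ne_top,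
      lintegral_gaussianPDF_eq_one _ (by norm_num)]
    simp
  have h2 : ∀ η : Fin n → ℝ, ENNReal.ofReal (Real.exp ((η ⬝ᵥ η) / 4)) =
      ∏ i, ENNReal.ofReal (Real.exp ((η i) ^ 2 / 4)) := by
    intro η
    rw [← ENNReal.ofReal_prod_of_nonneg (fun i _ => by positivity), ← Real.exp_sum]
    congr 2
    rw [dotProduct, Finset.sum_div]
    exact Finset.sum_congr rfl fun i _ => by ring
  rw [lintegral_congr h2]
  unfold gauss
  rw [lintegral_pi_prod_wg (fun _ : Fin n => gaussianReal 0 1)
    (fun _ x => ENNReal.ofReal (Real.exp (x ^ 2 / 4))) (fun _ => by fun_prop)]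
  exact ENNReal.prod_ne_top fun i _ => h1

theorem measurable_trace_wg (n : ℕ) : Measurable fun X : Matrix (Fin n) (Fin n) ℝ => X.trace := by
  unfold Matrix.trace
  simp only [diag_apply]
  exact Finset.measurable_fun_sum _ fun i _ => measurable_entry i i

theorem BW_exp_ne_top (n : ℕ) : ∀ a : ℝ, (n : ℝ) - 1 < a →
    ∫⁻ X, ENNReal.ofReal (Real.exp (X.trace / 4)) ∂(BW n a) ≠ ⊤ := by
  induction n with
  | zero =>
    intro a _
    simp only [BW]
    have hm : Measurable fun X : Matrix (Fin 0) (Fin 0) ℝ =>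
        ENNReal.ofReal (Real.exp (X.trace / 4)) := by
      have := measurable_trace_wg 0
      fun_prop
    rw [lintegral_dirac' _ hm]
    exact ENNReal.ofReal_ne_top
  | succ n ih =>
    intro a ha
    have ha' : (n : ℝ) < a := by push_cast at ha; linarith
    have := isProb_BW n (a - 1) (by linarith)
    have : IsProbabilityMeasure (chi a) := isProb_chi (lt_of_le_of_lt (Nat.cast_nonneg n) ha')
    have hm : ∀ n : ℕ, Measurable fun X : Matrix (Fin n) (Fin n) ℝ =>
        ENNReal.ofReal (Real.exp (X.trace / 4)) := fun n => by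
      have := measurable_trace_wg n
      fun_prop
    simp only [BW]
    rw [lintegral_map (hm _) (measurable_build n)]
    have hsplit : ∀ q : ℝ × ((Fin n → ℝ) × Matrix (Fin n) (Fin n) ℝ),
        ENNReal.ofReal (Real.exp ((build q.1 q.2.1 q.2.2).trace / 4)) =
        ENNReal.ofReal (Real.exp (q.1 / 4)) * (ENNReal.ofReal (Real.exp ((q.2.1 ⬝ᵥ q.2.1) / 4)) *
          ENNReal.ofReal (Real.exp (q.2.2.trace / 4))) := by
      intro q
      rw [trace_build, ← ENNReal.ofReal_mul (by positivity), ← ENNReal.ofReal_mul (by positivity),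
        ← Real.exp_add, ← Real.exp_add]
      congr 2; ring
    have hdot : Measurable fun η : Fin n → ℝ => ENNReal.ofReal (Real.exp ((η ⬝ᵥ η) / 4)) := by
      unfold dotProduct
      fun_prop
    have hmul : Measurable fun r : (Fin n → ℝ) × Matrix (Fin n) (Fin n) ℝ =>
        ENNReal.ofReal (Real.exp ((r.1 ⬝ᵥ r.1) / 4)) *
          ENNReal.ofReal (Real.exp (r.2.trace / 4)) :=
      (hdot.comp measurable_fst).mul ((hm n).comp measurable_snd)
    have h0 : Measurable fun t : ℝ => ENNReal.ofReal (Real.exp (t / 4)) := by fun_prop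
    rw [lintegral_congr hsplit, lintegral_prod_mul (f := fun t : ℝ => ENNReal.ofReal
        (Real.exp (t / 4))) (g := fun r : (Fin n → ℝ) × Matrix (Fin n) (Fin n) ℝ =>
        ENNReal.ofReal (Real.exp ((r.1 ⬝ᵥ r.1) / 4)) *
          ENNReal.ofReal (Real.exp (r.2.trace / 4))) h0.aemeasurable hmul.aemeasurable,
      lintegral_prod_mul (f := fun η : Fin n → ℝ => ENNReal.ofReal (Real.exp ((η ⬝ᵥ η) / 4)))
        (g := fun X : Matrix (Fin n) (Fin n) ℝ => ENNReal.ofReal (Real.exp (X.trace / 4)))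
        hdot.aemeasurable (hm n).aemeasurable]
    exact ENNReal.mul_ne_top (chi_exp_ne_top (lt_of_le_of_lt (Nat.cast_nonneg n) ha'))
      (ENNReal.mul_ne_top (gauss_exp_ne_top n) (ih (a - 1) (by linarith)))

theorem mom_holds (hD : S_PD) : S_MOM := by
  intro n a ha N
  have hle : ∀ᵐ X ∂(BW n a), ENNReal.ofReal ((1 + X.trace) ^ N) ≤
      ENNReal.ofReal (4 ^ N * (N.factorial : ℝ) * Real.exp (1 / 4)) *
        ENNReal.ofReal (Real.exp (X.trace / 4)) := by
    filter_upwards [(hD n a ha).2] with X hX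
    rw [← ENNReal.ofReal_mul (by positivity)]
    refine ENNReal.ofReal_le_ofReal ?_
    have htr : 0 ≤ X.trace := hX.posSemidef.trace_nonneg
    have h := Real.pow_div_factorial_le_exp ((1 + X.trace) / 4) (by positivity) N
    rw [div_le_iff₀ (by positivity), div_pow, div_le_iff₀ (by positivity)] at h
    have e : Real.exp ((1 + X.trace) / 4) = Real.exp (1 / 4) * Real.exp (X.trace / 4) := by
      rw [← Real.exp_add]; congr 1; ring
    rw [e] at h
    linarith
  refine ne_top_of_le_ne_top ?_ (lintegral_mono_ae hle)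
  rw [lintegral_const_mul' _ _ ENNReal.ofReal_ne_top]
  exact ENNReal.mul_ne_top ENNReal.ofReal_ne_top (BW_exp_ne_top n a ha)

end Pool.Agent.TH435.WG
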