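import Pool.Agent.TH435.WG.Wrec

set_option autoImplicit false
open MeasureTheory ProbabilityTheory Matrix
open scoped ENNReal

namespace Pool.Agent.TH435.WG

namespace Perm

open Wrec

/-- the equivalence of `Sym2` induced by a permutation -/
def eqv {n : ℕ} (σ : Equiv.Perm (Fin n)) : Sym2 (Fin n) ≃ Sym2 (Fin n) where
  toFun := Sym2.map σ
  invFun := Sym2.map σ.symm
  left_inv z := by
    rw [Sym2.map_map]
    simp
  right_inv z := by
    rw [Sym2.map_map]
    simp

/-- permutation of coordinates -/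
def tau {n : ℕ} (σ : Equiv.Perm (Fin n)) (x : Sym2 (Fin n) → ℝ) : Sym2 (Fin n) → ℝ :=
  fun z => x (eqv σ z)

lemma tau_mp {n : ℕ} (σ : Equiv.Perm (Fin n)) :
    MeasurePreserving (tau σ) (volume : Measure (Sym2 (Fin n) → ℝ)) volume := by
  have h := volume_measurePreserving_piCongrLeft (fun _ : Sym2 (Fin n) => ℝ) (eqv σ).symm
  have e : (MeasurableEquiv.piCongrLeft (fun _ : Sym2 (Fin n) => ℝ) (eqv σ).symm :
      (Sym2 (Fin n) → ℝ) → (Sym2 (Fin n) → ℝ)) = tau σ := by
    funext x b
    have h1 := Equiv.piCongrLeft_apply_apply (fun _ : Sym2 (Fin n) => ℝ) (eqv σ).symm x (eqv σ b)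
    rw [Equiv.symm_apply_apply] at h1
    exact h1
  rw [← e]
  exact h

lemma symMat_tau {n : ℕ} (σ : Equiv.Perm (Fin n)) (x : Sym2 (Fin n) → ℝ) :
    symMat (tau σ x) = (symMat x).submatrix σ σ := by
  ext i j
  simp [symMat, tau, eqv]

lemma mem_cone_tau {n : ℕ} (σ : Equiv.Perm (Fin n)) (x : Sym2 (Fin n) → ℝ) :
    tau σ x ∈ cone (Fin n) ↔ x ∈ cone (Fin n) := by
  show (symMat (tau σ x)).PosDef ↔ (symMat x).PosDef
  rw [symMat_tau]
  constructor
  · intro h
    have h1 := h.submatrix (e := σ.symm) σ.symm.injective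
    rw [Matrix.submatrix_submatrix] at h1
    simpa using h1
  · intro h
    exact h.submatrix σ.injective

lemma dens_tau {n : ℕ} (σ : Equiv.Perm (Fin n)) (a : ℝ) (x : Sym2 (Fin n) → ℝ) :
    dens n a (tau σ x) = dens n a x := by
  unfold dens
  rw [symMat_tau, Matrix.det_submatrix_equiv_self]
  have htr : ((symMat x).submatrix σ σ).trace = (symMat x).trace := by
    simp only [Matrix.trace, Matrix.diag, Matrix.submatrix_apply]
    exact Equiv.sum_comp σ (fun i => symMat x i i)
  rw [htr]

lemma Wun_tau {n : ℕ} (σ : Equiv.Perm (Fin n)) (a : ℝ) : (Wun n a).map (tau σ) = Wun n a := by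
  refine Measure.ext_of_lintegral _ fun f hf => ?_
  rw [lintegral_map hf (tau_mp σ).measurable, lintegral_Wun, lintegral_Wun]
  have hm : Measurable ((cone (Fin n)).indicator (fun x => dens n a x * f x)) :=
    ((dens_measurable n a).mul hf).indicator (measurableSet_cone _)
  rw [← (tau_mp σ).lintegral_comp hm]
  refine lintegral_congr fun x => ?_
  by_cases hx : x ∈ cone (Fin n)
  · rw [Set.indicator_of_mem hx, Set.indicator_of_mem ((mem_cone_tau σ x).2 hx), dens_tau]
  · rw [Set.indicator_of_notMem hx,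
      Set.indicator_of_notMem (fun h => hx ((mem_cone_tau σ x).1 h))]

end Perm

open Perm Wrec in
theorem perm_holds (hW : S_WBW) : S_PERM := by
  intro n a ha σ
  obtain ⟨C, hC0, hCt, hC⟩ := hW n a ha
  have hB : BW n a = C⁻¹ • (Wun n a).map symMat := by
    rw [hC, smul_smul, ENNReal.inv_mul_cancel hC0 hCt, one_smul]
  have hT : Measurable (fun X : Matrix (Fin n) (Fin n) ℝ => X.submatrix σ σ) := by
    refine measurable_pi_iff.2 fun i => measurable_pi_iff.2 fun j => ?_
    exact (measurable_pi_apply (σ j)).comp (measurable_pi_apply (X := fun _ => Fin n → ℝ) (σ i))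
  rw [hB, Measure.map_smul, Measure.map_map hT symMat_measurable]
  congr 1
  have e : (fun X : Matrix (Fin n) (Fin n) ℝ => X.submatrix σ σ) ∘ symMat
      = symMat ∘ (tau σ) := by
    funext x
    exact (symMat_tau σ x).symm
  rw [e, ← Measure.map_map symMat_measurable (tau_mp σ).measurable, Wun_tau]

end Pool.Agent.TH435.WG

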