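import Pool.Agent.TH435.WG.Stmts

/-!
# WG-QUAD (helper159 for helper435)

Structure of `det (R + (B + c ξᵀ)(B + c ξᵀ)ᵀ + y c cᵀ)` as a function of `(ξ, y)`.
-/

set_option autoImplicit false
open MeasureTheory ProbabilityTheory Matrix
open scoped ENNReal MatrixOrder

namespace Pool.Agent.TH435.WG

namespace QuadAux

variable {m n : Type*} [Fintype m] [Fintype n]

theorem dot_symm {A : Matrix m m ℝ} (hA : Aᵀ = A) (x y : m → ℝ) :
    x ⬝ᵥ (A *ᵥ y) = y ⬝ᵥ (A *ᵥ x) := by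
  rw [Matrix.dotProduct_mulVec, ← Matrix.mulVec_transpose, hA, dotProduct_comm]

theorem dot_nonneg {A : Matrix m m ℝ} (hA : A.PosSemidef) (x : m → ℝ) :
    0 ≤ x ⬝ᵥ (A *ᵥ x) := by
  have := hA.dotProduct_mulVec_nonneg x
  simpa using this

omit [Fintype m] in
theorem tr_of_psd {A : Matrix m m ℝ} (hA : A.PosSemidef) : Aᵀ = A := by
  have := hA.1
  rw [Matrix.IsHermitian, Matrix.conjTranspose_eq_transpose_of_trivial] at this
  exact this

theorem vmv_mulVec (a b x : m → ℝ) : vecMulVec a b *ᵥ x = (x ⬝ᵥ b) • a := by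
  ext i
  simp only [Matrix.mulVec, vecMulVec_apply, dotProduct, Pi.smul_apply, smul_eq_mul,
    Finset.sum_mul]
  exact Finset.sum_congr rfl fun x _ => by ring

/-- Cauchy–Schwarz for a positive semidefinite form. -/
theorem cs {A : Matrix m m ℝ} (hA : A.PosSemidef) (x y : m → ℝ) :
    (x ⬝ᵥ (A *ᵥ y)) ^ 2 ≤ (x ⬝ᵥ (A *ᵥ x)) * (y ⬝ᵥ (A *ᵥ y)) := by
  have hs := dot_symm (tr_of_psd hA) x y
  have key : ∀ t : ℝ, 0 ≤ (y ⬝ᵥ (A *ᵥ y)) * (t * t) + (-2 * (x ⬝ᵥ (A *ᵥ y))) * t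
      + x ⬝ᵥ (A *ᵥ x) := by
    intro t
    have h := dot_nonneg hA (x - t • y)
    have e : (x - t • y) ⬝ᵥ (A *ᵥ (x - t • y)) = (y ⬝ᵥ (A *ᵥ y)) * (t * t)
        + (-2 * (x ⬝ᵥ (A *ᵥ y))) * t + x ⬝ᵥ (A *ᵥ x) := by
      rw [Matrix.mulVec_sub, Matrix.mulVec_smul, sub_dotProduct, dotProduct_sub, dotProduct_sub,
        smul_dotProduct, smul_dotProduct, dotProduct_smul, dotProduct_smul, ← hs]
      simp only [smul_eq_mul]
      ring
    rwa [e] at h
  have h := discrim_le_zero key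
  rw [discrim] at h
  nlinarith

/-- `det (1 + P) ≥ 1`. -/
theorem one_le_det_one_add [DecidableEq m] {P : Matrix m m ℝ} (hP : P.PosSemidef) :
    1 ≤ (1 + P).det := by
  have hH : (1 + P).IsHermitian := (Matrix.PosSemidef.one.add hP).1
  rw [hH.det_eq_prod_eigenvalues]
  simp only [RCLike.ofReal_real_eq_id, id_eq]
  rw [← Finset.prod_const_one (s := (Finset.univ : Finset m))]
  refine Finset.prod_le_prod (fun _ _ => zero_le_one) fun i _ => ?_
  have h1 := hH.eigenvalues_eq i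
  set v : m → ℝ := (hH.eigenvectorBasis i : m → ℝ) with hv
  have h2 : v ⬝ᵥ v = 1 := by
    have h := hH.eigenvectorBasis.orthonormal.1 i
    have h' : ‖hH.eigenvectorBasis i‖ ^ 2 = 1 := by rw [h]; norm_num
    rw [EuclideanSpace.norm_sq_eq] at h'
    rw [dotProduct, ← h']
    refine Finset.sum_congr rfl fun k _ => ?_
    rw [Real.norm_eq_abs, sq_abs, hv]
    ring
  have h3 : hH.eigenvalues i = v ⬝ᵥ ((1 + P) *ᵥ v) := by
    rw [h1]
    simp [hv]
  rw [h3, Matrix.add_mulVec, Matrix.one_mulVec, dotProduct_add, h2]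
  have := dot_nonneg hP v
  linarith

/-- `det (R + W Wᵀ) ≥ det R`. -/
theorem det_le_det_add [DecidableEq m] [DecidableEq n] {R : Matrix m m ℝ} (hR : R.PosDef)
    (W : Matrix m n ℝ) : R.det ≤ (R + W * Wᵀ).det := by
  rw [Matrix.det_add_mul _ _ (Matrix.isUnit_iff_isUnit_det _ |>.1 hR.isUnit)]
  have h1 : (Wᵀ * R⁻¹ * W).PosSemidef := by
    have := hR.inv.posSemidef.conjTranspose_mul_mul_same W
    rwa [Matrix.conjTranspose_eq_transpose_of_trivial] at this
  have h2 := one_le_det_one_add h1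
  have h3 := hR.det_pos
  nlinarith

/-- The trace of a product of positive semidefinite matrices is nonnegative. -/
theorem trace_mul_nonneg [DecidableEq m] {X Y : Matrix m m ℝ} (hX : X.PosSemidef)
    (hY : Y.PosSemidef) : 0 ≤ (X * Y).trace := by
  obtain ⟨T, rfl⟩ := CStarAlgebra.nonneg_iff_eq_star_mul_self.mp hX.nonneg
  rw [Matrix.star_eq_conjTranspose, Matrix.mul_assoc, Matrix.trace_mul_comm]
  exact (hY.mul_mul_conjTranspose_same T).trace_nonneg

end QuadAux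

open QuadAux

theorem quad_holds : S_QUAD := by
  intro p j R B c hR
  classical
  set A : Matrix (Fin p) (Fin p) ℝ := R + B * Bᵀ with hAdef
  have hBB : (B * Bᵀ).PosSemidef := by
    have := Matrix.posSemidef_self_mul_conjTranspose B
    rwa [Matrix.conjTranspose_eq_transpose_of_trivial] at this
  have hA : A.PosDef := hR.add_posSemidef hBB
  have hAu : IsUnit A.det := (Matrix.isUnit_iff_isUnit_det _).1 hA.isUnit
  set Ai : Matrix (Fin p) (Fin p) ℝ := A⁻¹ with hAidef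
  have hAi : Ai.PosDef := hA.inv
  have hAiP : Ai.PosSemidef := hAi.posSemidef
  have hAit : Aiᵀ = Ai := tr_of_psd hAiP
  have hAAi : A * Ai = 1 := Matrix.mul_nonsing_inv A hAu
  have hAiA : Ai * A = 1 := Matrix.nonsing_inv_mul A hAu
  have hD : 0 < A.det := hA.det_pos
  set D : ℝ := A.det with hDdef
  set g' : ℝ := c ⬝ᵥ (Ai *ᵥ c) with hg'def
  have hg' : 0 ≤ g' := dot_nonneg hAiP c
  set h : Fin j → ℝ := Bᵀ *ᵥ (Ai *ᵥ c) with hhdef
  set P : Matrix (Fin j) (Fin j) ℝ := 1 - Bᵀ * Ai * B with hPdef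
  have hPt : Pᵀ = P := by
    rw [hPdef, Matrix.transpose_sub, Matrix.transpose_one, Matrix.transpose_mul,
      Matrix.transpose_mul, Matrix.transpose_transpose, hAit, Matrix.mul_assoc]
  -- the form of `P`
  have hPform : ∀ v w : Fin j → ℝ, v ⬝ᵥ (P *ᵥ w) = v ⬝ᵥ w - (B *ᵥ v) ⬝ᵥ (Ai *ᵥ (B *ᵥ w)) := by
    intro v w
    rw [hPdef, Matrix.sub_mulVec, Matrix.one_mulVec, dotProduct_sub, ← Matrix.mulVec_mulVec,
      ← Matrix.mulVec_mulVec, Matrix.dotProduct_mulVec v Bᵀ, Matrix.vecMul_transpose]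
  have hh : ∀ v : Fin j → ℝ, v ⬝ᵥ h = (B *ᵥ v) ⬝ᵥ (Ai *ᵥ c) := by
    intro v
    rw [hhdef, Matrix.dotProduct_mulVec v Bᵀ, Matrix.vecMul_transpose]
  -- `P` is positive semidefinite
  have hPnn : ∀ v : Fin j → ℝ, 0 ≤ v ⬝ᵥ (P *ᵥ v) := by
    intro v
    rw [hPform]
    set u : Fin p → ℝ := Ai *ᵥ (B *ᵥ v) with hu
    have hAu' : A *ᵥ u = B *ᵥ v := by
      rw [hu, Matrix.mulVec_mulVec, hAAi, Matrix.one_mulVec]
    set w : Fin j → ℝ := Bᵀ *ᵥ u with hw
    have e1 : (B *ᵥ v) ⬝ᵥ u = v ⬝ᵥ w := by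
      rw [hw, Matrix.dotProduct_mulVec v Bᵀ, Matrix.vecMul_transpose]
    have e2 : (B *ᵥ v) ⬝ᵥ u = u ⬝ᵥ (R *ᵥ u) + w ⬝ᵥ w := by
      rw [← hAu', dotProduct_comm, hAdef, Matrix.add_mulVec, dotProduct_add, ← Matrix.mulVec_mulVec,
        Matrix.dotProduct_mulVec u B, ← Matrix.mulVec_transpose]
    have e3 : 0 ≤ u ⬝ᵥ (R *ᵥ u) := dot_nonneg hR.posSemidef u
    have e4 : 0 ≤ (v - w) ⬝ᵥ (v - w) := by
      rw [dotProduct]
      exact Finset.sum_nonneg fun i _ => mul_self_nonneg _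
    have e5 : (v - w) ⬝ᵥ (v - w) = v ⬝ᵥ v - 2 * (v ⬝ᵥ w) + w ⬝ᵥ w := by
      rw [sub_dotProduct, dotProduct_sub, dotProduct_sub, dotProduct_comm w v]
      ring
    rw [e1] at e2 ⊢
    linarith
  have hPsd : P.PosSemidef := by
    refine Matrix.PosSemidef.of_dotProduct_mulVec_nonneg ?_ fun v => ?_
    · rw [Matrix.IsHermitian, Matrix.conjTranspose_eq_transpose_of_trivial, hPt]
    · simpa using hPnn v
  -- the determinant
  have hdet : ∀ ω : (Fin j → ℝ) × ℝ, (NN R B c ω).det =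
      quad D (D * g') (D • h) (D • (vecMulVec h h + g' • P)) ω := by
    rintro ⟨ξ, y⟩
    set w : Fin p → ℝ := B *ᵥ ξ with hw
    set θ : ℝ := ξ ⬝ᵥ ξ + y with hθ
    set U : Matrix (Fin p) (Fin 2) ℝ := Matrix.of fun i k => (![w i + θ * c i, c i] : Fin 2 → ℝ) k with hU
    set V : Matrix (Fin 2) (Fin p) ℝ := Matrix.of ![c, w] with hV
    have hNN : NN R B c (ξ, y) = A + U * V := by
      have h1 : (B + vecMulVec c ξ) * (B + vecMulVec c ξ)ᵀ
          = B * Bᵀ + vecMulVec w c + vecMulVec c w + (ξ ⬝ᵥ ξ) • vecMulVec c c := by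
        rw [Matrix.transpose_add, Matrix.transpose_vecMulVec, Matrix.mul_add, Matrix.add_mul,
          Matrix.add_mul]
        have a1 : vecMulVec c ξ * Bᵀ = vecMulVec c w := by
          ext i k
          simp only [Matrix.mul_apply, vecMulVec_apply, Matrix.transpose_apply, hw, Matrix.mulVec,
            dotProduct, Finset.mul_sum]
          exact Finset.sum_congr rfl fun x _ => by ring
        have a2 : B * vecMulVec ξ c = vecMulVec w c := by
          ext i k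
          simp only [Matrix.mul_apply, vecMulVec_apply, hw, Matrix.mulVec,
            dotProduct, Finset.sum_mul]
          exact Finset.sum_congr rfl fun x _ => by ring
        have a3 : vecMulVec c ξ * vecMulVec ξ c = (ξ ⬝ᵥ ξ) • vecMulVec c c := by
          ext i k
          simp only [Matrix.mul_apply, vecMulVec_apply, Matrix.smul_apply, smul_eq_mul,
            dotProduct, Finset.sum_mul]
          exact Finset.sum_congr rfl fun x _ => by ring
        rw [a1, a2, a3]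
        abel
      have h2 : U * V = vecMulVec w c + vecMulVec c w + θ • vecMulVec c c := by
        ext i k
        simp only [Matrix.mul_apply, Fin.sum_univ_two, hU, hV, Matrix.of_apply,
          Matrix.add_apply, vecMulVec_apply, Matrix.smul_apply, smul_eq_mul, Matrix.cons_val_zero,
          Matrix.cons_val_one]
        ring
      rw [NN, h1, h2, hAdef, hθ, add_smul]
      abel
    have hdet2 : (1 + V * Ai * U).det = (1 + w ⬝ᵥ (Ai *ᵥ c)) ^ 2 +
        g' * (θ - w ⬝ᵥ (Ai *ᵥ w)) := by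
      have hcw : c ⬝ᵥ (Ai *ᵥ w) = w ⬝ᵥ (Ai *ᵥ c) := dot_symm hAit c w
      have e : ∀ k l : Fin 2, (V * Ai * U) k l =
          (![c, w] : Fin 2 → Fin p → ℝ) k ⬝ᵥ (Ai *ᵥ ((![w + θ • c, c] : Fin 2 → Fin p → ℝ) l)) := by
        intro k l
        rw [Matrix.mul_assoc, Matrix.mul_apply]
        rw [dotProduct]
        refine Finset.sum_congr rfl fun x _ => ?_
        rw [hV, Matrix.of_apply, Matrix.mul_apply, Matrix.mulVec, dotProduct]
        congr 1
        refine Finset.sum_congr rfl fun z _ => ?_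
        rw [hU, Matrix.of_apply]
        fin_cases l <;> simp
      rw [Matrix.det_fin_two]
      simp only [Matrix.add_apply, e, Matrix.one_apply_eq, Matrix.cons_val_zero,
        Matrix.cons_val_one, Matrix.mulVec_add, Matrix.mulVec_smul, dotProduct_add,
        dotProduct_smul, smul_eq_mul, ne_eq, zero_ne_one, one_ne_zero, not_false_eq_true,
        Matrix.one_apply_ne, zero_add, hcw]
      rw [← hg'def]
      ring
    rw [hNN, Matrix.det_add_mul _ _ hAu, ← hAidef, hdet2, quad]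
    have e1 : w ⬝ᵥ (Ai *ᵥ c) = ξ ⬝ᵥ h := by rw [hh, hw]
    have e2 : w ⬝ᵥ (Ai *ᵥ w) = ξ ⬝ᵥ ξ - ξ ⬝ᵥ (P *ᵥ ξ) := by rw [hPform, hw]; ring
    have e3 : ξ ⬝ᵥ ((D • (vecMulVec h h + g' • P)) *ᵥ ξ) =
        D * ((ξ ⬝ᵥ h) ^ 2 + g' * (ξ ⬝ᵥ (P *ᵥ ξ))) := by
      rw [Matrix.smul_mulVec, Matrix.add_mulVec, Matrix.smul_mulVec, dotProduct_smul,
        dotProduct_add, dotProduct_smul]
      have : vecMulVec h h *ᵥ ξ = (ξ ⬝ᵥ h) • h := by
        ext i
        simp only [Matrix.mulVec, vecMulVec_apply, dotProduct, Pi.smul_apply, smul_eq_mul,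
          Finset.sum_mul]
        exact Finset.sum_congr rfl fun x _ => by ring
      rw [this, dotProduct_smul]
      simp only [smul_eq_mul]
      ring
    have e4 : (D • h) ⬝ᵥ ξ = D * (ξ ⬝ᵥ h) := by
      rw [smul_dotProduct, dotProduct_comm, smul_eq_mul]
    simp only
    rw [e1, e2, e3, e4, hθ]
    ring
  have hquad0 : ∀ ξ : Fin j → ℝ, quad D (D * g') (D • h) (D • (vecMulVec h h + g' • P)) (ξ, 0) =
      D * ((1 + ξ ⬝ᵥ h) ^ 2 + g' * (ξ ⬝ᵥ (P *ᵥ ξ))) := by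
    intro ξ
    rw [quad]
    have e3 : ξ ⬝ᵥ ((D • (vecMulVec h h + g' • P)) *ᵥ ξ) =
        D * ((ξ ⬝ᵥ h) ^ 2 + g' * (ξ ⬝ᵥ (P *ᵥ ξ))) := by
      rw [Matrix.smul_mulVec, Matrix.add_mulVec, Matrix.smul_mulVec, dotProduct_smul,
        dotProduct_add, dotProduct_smul]
      have : vecMulVec h h *ᵥ ξ = (ξ ⬝ᵥ h) • h := by
        ext i
        simp only [Matrix.mulVec, vecMulVec_apply, dotProduct, Pi.smul_apply, smul_eq_mul,
          Finset.sum_mul]
        exact Finset.sum_congr rfl fun x _ => by ring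
      rw [this, dotProduct_smul]
      simp only [smul_eq_mul]
      ring
    have e4 : (D • h) ⬝ᵥ ξ = D * (ξ ⬝ᵥ h) := by
      rw [smul_dotProduct, dotProduct_comm, smul_eq_mul]
    simp only
    rw [e3, e4]
    ring
  refine ⟨D, D * g', R.det, D • h, D • (vecMulVec h h + g' • P), mul_nonneg hD.le hg',
    hR.det_pos, ?_, hdet, ?_, ?_, ?_⟩
  · rw [Matrix.transpose_smul, Matrix.transpose_add, Matrix.transpose_vecMulVec,
      Matrix.transpose_smul, hPt]
  · intro ξ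
    rw [← hdet, NN]
    simp only [zero_smul, add_zero]
    exact det_le_det_add hR _
  · intro ξ
    rw [hquad0]
    set a : ℝ := 1 + ξ ⬝ᵥ h with ha
    set u : Fin j → ℝ := a • h + g' • (P *ᵥ ξ) with hu
    have e1 : D • h + (D • (vecMulVec h h + g' • P)) *ᵥ ξ = D • u := by
      have : vecMulVec h h *ᵥ ξ = (ξ ⬝ᵥ h) • h := by
        ext i
        simp only [Matrix.mulVec, vecMulVec_apply, dotProduct, Pi.smul_apply, smul_eq_mul,
          Finset.sum_mul]
        exact Finset.sum_congr rfl fun x _ => by ring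
      rw [Matrix.smul_mulVec, Matrix.add_mulVec, Matrix.smul_mulVec, this, hu, ha, add_smul,
        one_smul]
      simp only [smul_add]
      abel
    rw [e1, smul_dotProduct, dotProduct_smul, smul_eq_mul, smul_eq_mul]
    -- `u ⬝ u ≤ g' * (a ^ 2 + g' ξ P ξ)`
    have e2 : u ⬝ᵥ u = a * (u ⬝ᵥ h) + g' * (u ⬝ᵥ (P *ᵥ ξ)) := by
      conv_lhs => rw [hu]
      rw [← hu, add_dotProduct, smul_dotProduct, smul_dotProduct, dotProduct_comm h u,
        dotProduct_comm (P *ᵥ ξ) u]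
      simp only [smul_eq_mul]
    have e3 : (u ⬝ᵥ h) ^ 2 + g' * (u ⬝ᵥ (P *ᵥ u)) ≤ g' * (u ⬝ᵥ u) := by
      have h1 := cs hAiP (B *ᵥ u) c
      rw [← hg'def] at h1
      rw [hh, hPform]
      linarith
    have e4 : u ⬝ᵥ u ≤ g' * (a ^ 2 + g' * (ξ ⬝ᵥ (P *ᵥ ξ))) := by
      rcases hg'.eq_or_lt with h0 | h0
      · -- `g' = 0`
        rw [← h0] at e3 ⊢
        have h1 : (u ⬝ᵥ h) = 0 := by nlinarith
        rw [e2, h1, ← h0]
        simp
      · have h1 : 0 ≤ (g' • ξ - u) ⬝ᵥ (P *ᵥ (g' • ξ - u)) := hPnn _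
        have h2 : (g' • ξ - u) ⬝ᵥ (P *ᵥ (g' • ξ - u)) =
            g' ^ 2 * (ξ ⬝ᵥ (P *ᵥ ξ)) - 2 * g' * (u ⬝ᵥ (P *ᵥ ξ)) + u ⬝ᵥ (P *ᵥ u) := by
          rw [Matrix.mulVec_sub, Matrix.mulVec_smul, sub_dotProduct, dotProduct_sub,
            dotProduct_sub, smul_dotProduct, smul_dotProduct, dotProduct_smul, dotProduct_smul,
            dot_symm hPt ξ u]
          simp only [smul_eq_mul]
          ring
        rw [h2] at h1
        -- `0 ≤ (g' a - u·h)² + g' * (h2)`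
        have h3 : 0 ≤ (g' * a - u ⬝ᵥ h) ^ 2 := sq_nonneg _
        have h4 : 0 ≤ g' * (g' ^ 2 * (ξ ⬝ᵥ (P *ᵥ ξ)) - 2 * g' * (u ⬝ᵥ (P *ᵥ ξ)) +
            u ⬝ᵥ (P *ᵥ u)) := mul_nonneg hg' h1
        have h5 : 0 ≤ g' * (g' * (a ^ 2 + g' * (ξ ⬝ᵥ (P *ᵥ ξ))) - u ⬝ᵥ u) := by
          nlinarith
        have h6 := nonneg_of_mul_nonneg_right h5 h0
        linarith
    have h7 : 0 ≤ D * D := mul_self_nonneg D
    calc D * (D * (u ⬝ᵥ u)) = (D * D) * (u ⬝ᵥ u) := by ring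
      _ ≤ (D * D) * (g' * (a ^ 2 + g' * (ξ ⬝ᵥ (P *ᵥ ξ)))) := mul_le_mul_of_nonneg_left e4 h7
      _ = D * g' * (D * (a ^ 2 + g' * (ξ ⬝ᵥ (P *ᵥ ξ)))) := by ring
  · -- the trace
    have t1 : (vecMulVec h h).trace = h ⬝ᵥ h := Matrix.trace_vecMulVec h h
    have t2 : P.trace = j - p + (Ai * R).trace := by
      rw [hPdef, Matrix.trace_sub, Matrix.trace_one, Matrix.mul_assoc, Matrix.trace_mul_comm,
        Matrix.mul_assoc]
      have : B * Bᵀ = A - R := by rw [hAdef]; abel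
      rw [this, Matrix.mul_sub, hAiA, Matrix.trace_sub, Matrix.trace_one]
      simp
      ring
    have t3 : h ⬝ᵥ h = g' - (Ai *ᵥ c) ⬝ᵥ (R *ᵥ (Ai *ᵥ c)) := by
      rw [hh, hhdef, hg'def]
      have h1 : B *ᵥ (Bᵀ *ᵥ (Ai *ᵥ c)) = c - R *ᵥ (Ai *ᵥ c) := by
        rw [Matrix.mulVec_mulVec]
        have : B * Bᵀ = A - R := by rw [hAdef]; abel
        rw [this, Matrix.sub_mulVec, Matrix.mulVec_mulVec, hAAi, Matrix.one_mulVec]
      rw [h1, sub_dotProduct, dotProduct_comm (R *ᵥ (Ai *ᵥ c))]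
    have t4 : (Ai *ᵥ c) ⬝ᵥ (R *ᵥ (Ai *ᵥ c)) ≤ g' * (Ai * R).trace := by
      have hX : (g' • Ai - vecMulVec (Ai *ᵥ c) (Ai *ᵥ c)).PosSemidef := by
        refine Matrix.PosSemidef.of_dotProduct_mulVec_nonneg ?_ fun x => ?_
        · rw [Matrix.IsHermitian, Matrix.conjTranspose_eq_transpose_of_trivial,
            Matrix.transpose_sub, Matrix.transpose_smul, hAit, Matrix.transpose_vecMulVec]
        · have h1 := cs hAiP x c
          rw [← hg'def] at h1
          have h2 : vecMulVec (Ai *ᵥ c) (Ai *ᵥ c) *ᵥ x = (x ⬝ᵥ (Ai *ᵥ c)) • (Ai *ᵥ c) :=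
            vmv_mulVec _ _ _
          have h3 : x ⬝ᵥ ((g' • Ai - vecMulVec (Ai *ᵥ c) (Ai *ᵥ c)) *ᵥ x) =
              g' * (x ⬝ᵥ (Ai *ᵥ x)) - (x ⬝ᵥ (Ai *ᵥ c)) ^ 2 := by
            rw [Matrix.sub_mulVec, Matrix.smul_mulVec, h2, dotProduct_sub, dotProduct_smul,
              dotProduct_smul]
            simp only [smul_eq_mul]
            ring
          simp only [star_trivial]
          rw [h3]
          linarith
      have h4 := trace_mul_nonneg hX hR.posSemidef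
      rw [Matrix.sub_mul, Matrix.smul_mul, Matrix.trace_sub, Matrix.trace_smul,
        Matrix.trace_mul_comm (vecMulVec _ _), Matrix.mul_vecMulVec, Matrix.trace_vecMulVec,
        smul_eq_mul, dotProduct_comm] at h4
      linarith
    rw [Matrix.trace_smul, Matrix.trace_add, Matrix.trace_smul, t1, t2, t3]
    simp only [smul_eq_mul]
    have : g' * ((j : ℝ) - p + 1) ≤ g' - (Ai *ᵥ c) ⬝ᵥ (R *ᵥ (Ai *ᵥ c)) +
        g' * ((j : ℝ) - p + (Ai * R).trace) := by linarith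
    calc D * g' * ((j : ℝ) - p + 1) = D * (g' * ((j : ℝ) - p + 1)) := by ring
      _ ≤ _ := mul_le_mul_of_nonneg_left this hD.le

end Pool.Agent.TH435.WG
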