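import Pool.Agent.TH435.WG.Stmts

/-! WG-SR: induction on the size `q` of the tilted minor. -/

set_option autoImplicit false
open MeasureTheory ProbabilityTheory Matrix
open scoped ENNReal

namespace Pool.Agent.TH435.WG

namespace SrX

/-! ### measurability -/

theorem borelM (m n : ℕ) : BorelSpace (Matrix (Fin m) (Fin n) ℝ) :=
  inferInstanceAs (BorelSpace (Fin m → Fin n → ℝ))

theorem meas_det {n p : ℕ} (R : Matrix (Fin p) (Fin p) ℝ) (C : Matrix (Fin p) (Fin n) ℝ) :
    Measurable (fun X : Matrix (Fin n) (Fin n) ℝ => (R + C * X * Cᵀ).det) := by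
  have := borelM n n
  have hc : Continuous (fun X : Matrix (Fin n) (Fin n) ℝ => (R + C * X * Cᵀ).det) :=
    (continuous_const.add ((continuous_const.matrix_mul continuous_id).matrix_mul continuous_const)).matrix_det
  exact hc.measurable

theorem meas_minor {n q : ℕ} (hq : q ≤ n) :
    Measurable (fun X : Matrix (Fin n) (Fin n) ℝ => (X.submatrix (Fin.castLE hq) (Fin.castLE hq)).det) := by
  have := borelM n n
  have hc : Continuous (fun X : Matrix (Fin n) (Fin n) ℝ =>
      (X.submatrix (Fin.castLE hq) (Fin.castLE hq)).det) :=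
    (continuous_id.matrix_submatrix _ _).matrix_det
  exact hc.measurable

theorem meas_Gf {K : Type} [Fintype K] {n : ℕ} (p : K → ℕ)
    (R : ∀ k, Matrix (Fin (p k)) (Fin (p k)) ℝ) (C : ∀ k, Matrix (Fin (p k)) (Fin n) ℝ)
    (ν : K → ℝ) : Measurable (Gf p R C ν) := by
  unfold Gf
  apply Finset.measurable_fun_prod
  intro k _
  exact ((meas_det (R k) (C k)).pow_const (ν k)).ennreal_ofReal

theorem meas_minor_pow {n q : ℕ} (hq : q ≤ n) (ν0 : ℝ) :
    Measurable (fun X : Matrix (Fin n) (Fin n) ℝ =>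
      ENNReal.ofReal ((X.submatrix (Fin.castLE hq) (Fin.castLE hq)).det ^ ν0)) :=
  ((meas_minor hq).pow_const ν0).ennreal_ofReal

theorem meas_entry {n : ℕ} (i j : Fin n) : Measurable (fun X : Matrix (Fin n) (Fin n) ℝ => X i j) :=
  (measurable_pi_apply j).comp (measurable_pi_apply i)

theorem meas_build (n : ℕ) : Measurable
    (fun q : ℝ × ((Fin n → ℝ) × Matrix (Fin n) (Fin n) ℝ) => build q.1 q.2.1 q.2.2) := by
  have h1 : Measurable (fun q : ℝ × ((Fin n → ℝ) × Matrix (Fin n) (Fin n) ℝ) => √q.1) :=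
    Real.continuous_sqrt.measurable.comp measurable_fst
  have h2 : ∀ i, Measurable (fun q : ℝ × ((Fin n → ℝ) × Matrix (Fin n) (Fin n) ℝ) => q.2.1 i) := fun i =>
    (measurable_pi_apply i).comp (measurable_fst.comp measurable_snd)
  have h3 : ∀ i j, Measurable (fun q : ℝ × ((Fin n → ℝ) × Matrix (Fin n) (Fin n) ℝ) => q.2.2 i j) := fun i j =>
    (meas_entry i j).comp (measurable_snd.comp measurable_snd)
  apply measurable_pi_lambda
  intro i
  apply measurable_pi_lambda
  intro j
  refine Fin.cases ?_ (fun i' => ?_) i <;> refine Fin.cases ?_ (fun j' => ?_) j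
  · exact measurable_fst
  · exact h1.mul (h2 j')
  · exact h1.mul (h2 i')
  · exact (h3 i' j').add ((h2 i').mul (h2 j'))

/-! ### the laws -/

theorem chi_prob {a : ℝ} (ha : 0 < a) : IsProbabilityMeasure (chi a) :=
  isProbabilityMeasure_gammaMeasure (by positivity) (by norm_num)

theorem chi_pos (a : ℝ) : ∀ᵐ t ∂(chi a), 0 < t := by
  unfold chi gammaMeasure
  have hm : Measurable (gammaPDF (a / 2) (1 / 2)) := (measurable_gammaPDFReal _ _).ennreal_ofReal
  rw [ae_withDensity_iff hm]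
  have h0 : ∀ᵐ t : ℝ, t ≠ 0 := by
    have : (volume : Measure ℝ) {0} = 0 := measure_singleton 0
    exact measure_eq_zero_iff_ae_notMem.mp this |>.mono fun y hy => by simpa using hy
  filter_upwards [h0] with t ht hne
  by_contra hcon
  push Not at hcon
  exact hne (gammaPDF_of_neg (lt_of_le_of_ne hcon ht))

instance gauss_prob (n : ℕ) : IsProbabilityMeasure (gauss n) := by
  unfold gauss; infer_instance

/-! ### algebra -/

/-- `0 ⊕ S` -/
def bor {n : ℕ} (S : Matrix (Fin n) (Fin n) ℝ) : Matrix (Fin (n + 1)) (Fin (n + 1)) ℝ :=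
  Matrix.of (Fin.cons (Fin.cons 0 fun _ => 0) fun i => Fin.cons 0 fun j => S i j)

/-- the vector `(√t, η)` -/
noncomputable def rr {n : ℕ} (t : ℝ) (η : Fin n → ℝ) : Fin (n + 1) → ℝ := Fin.cons √t η

theorem build_eq {n : ℕ} {t : ℝ} (ht : 0 ≤ t) (η : Fin n → ℝ) (S : Matrix (Fin n) (Fin n) ℝ) :
    build t η S = vecMulVec (rr t η) (rr t η) + bor S := by
  ext i j
  refine Fin.cases ?_ (fun i' => ?_) i <;> refine Fin.cases ?_ (fun j' => ?_) j
  · simp [build, rr, bor, vecMulVec_apply, Real.mul_self_sqrt ht]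
  · simp [build, rr, bor, vecMulVec_apply]
  · simp [build, rr, bor, vecMulVec_apply, mul_comm]
  · simp [build, rr, bor, vecMulVec_apply, add_comm]

theorem mul_bor {p n : ℕ} (C : Matrix (Fin p) (Fin (n + 1)) ℝ) (S : Matrix (Fin n) (Fin n) ℝ) :
    C * bor S * Cᵀ = C.submatrix id Fin.succ * S * (C.submatrix id Fin.succ)ᵀ := by
  ext i j
  simp [Matrix.mul_apply, Fin.sum_univ_succ, bor]

theorem conj_build {p n : ℕ} {t : ℝ} (ht : 0 ≤ t) (η : Fin n → ℝ) (S : Matrix (Fin n) (Fin n) ℝ)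
    (R : Matrix (Fin p) (Fin p) ℝ) (C : Matrix (Fin p) (Fin (n + 1)) ℝ) :
    R + C * build t η S * Cᵀ = (R + vecMulVec (C *ᵥ rr t η) (C *ᵥ rr t η)) +
      C.submatrix id Fin.succ * S * (C.submatrix id Fin.succ)ᵀ := by
  rw [build_eq ht, Matrix.mul_add, Matrix.add_mul, mul_bor, Matrix.mul_vecMulVec, Matrix.vecMulVec_mul,
    Matrix.vecMul_transpose, add_assoc]

theorem posDef_add {p : ℕ} {R : Matrix (Fin p) (Fin p) ℝ} (hR : R.PosDef) (v : Fin p → ℝ) :
    (R + vecMulVec v v).PosDef := by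
  apply hR.add_posSemidef
  have := posSemidef_vecMulVec_self_star v
  simpa using this

theorem Gf_build {K : Type} [Fintype K] {n : ℕ} (p : K → ℕ)
    (R : ∀ k, Matrix (Fin (p k)) (Fin (p k)) ℝ) (C : ∀ k, Matrix (Fin (p k)) (Fin (n + 1)) ℝ)
    (ν : K → ℝ) {t : ℝ} (ht : 0 ≤ t) (η : Fin n → ℝ) (S : Matrix (Fin n) (Fin n) ℝ) :
    Gf p R C ν (build t η S) = Gf p (fun k => R k + vecMulVec (C k *ᵥ rr t η) (C k *ᵥ rr t η))
      (fun k => (C k).submatrix id Fin.succ) ν S := by
  unfold Gf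
  apply Finset.prod_congr rfl
  intro k _
  rw [conj_build ht]

theorem build_00 {n : ℕ} (t : ℝ) (η : Fin n → ℝ) (S : Matrix (Fin n) (Fin n) ℝ) : build t η S 0 0 = t := rfl

/-! ### integrals over `BW (n+1) a` -/

theorem lint_BW {n : ℕ} {a : ℝ} (hn : IsProbabilityMeasure (BW n (a - 1)))
    {F : Matrix (Fin (n + 1)) (Fin (n + 1)) ℝ → ℝ≥0∞} (hF : Measurable F) :
    ∫⁻ X, F X ∂(BW (n + 1) a) = ∫⁻ t, ∫⁻ η, ∫⁻ S, F (build t η S) ∂(BW n (a - 1)) ∂(gauss n) ∂(chi a) := by
  have hm := meas_build n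
  have hFb : Measurable (fun q : ℝ × ((Fin n → ℝ) × Matrix (Fin n) (Fin n) ℝ) => F (build q.1 q.2.1 q.2.2)) :=
    hF.comp hm
  show ∫⁻ X, F X ∂(((chi a).prod ((gauss n).prod (BW n (a - 1)))).map
      fun q => build q.1 q.2.1 q.2.2) = _
  rw [lintegral_map hF hm, lintegral_prod _ hFb.aemeasurable]
  apply lintegral_congr
  intro t
  rw [lintegral_prod]
  exact (hFb.comp (measurable_const.prodMk measurable_id)).aemeasurable

end SrX

open SrX in
theorem sr_holds (hS : S_SC) (hH : S_SCHUR) (hD : S_PD) : S_SR := by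
  intro q
  induction q with
  | zero =>
    intro n hq a ha K _ p R C ν ν0 hR hν hν0 _
    have := (hD n a ha).1
    simp
  | succ q ih =>
    intro n hq a ha K _ p R C ν ν0 hR hν hν0 hcond
    obtain ⟨n', rfl⟩ : ∃ n', n = n' + 1 := ⟨n - 1, by omega⟩
    have hq' : q ≤ n' := Nat.le_of_succ_le_succ hq
    have ha1 : (n' : ℝ) < a := by push_cast at ha; linarith
    have ha2 : (n' : ℝ) - 1 < a - 1 := by linarith
    have ha0 : 0 < a := lt_of_le_of_lt (Nat.cast_nonneg n') ha1
    have h1 := (hD n' (a - 1) ha2).1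
    have h2 := (hD n' (a - 1) ha2).2
    have h3 := chi_prob ha0
    have h4 := chi_pos a
    -- the constant
    set A' : ℝ≥0∞ := ∫⁻ S, ENNReal.ofReal ((S.submatrix (Fin.castLE hq') (Fin.castLE hq')).det ^ ν0)
      ∂(BW n' (a - 1)) with hA'
    -- the minor of `build`
    have hmin : ∀ t : ℝ, 0 < t → ∀ η : Fin n' → ℝ, ∀ S : Matrix (Fin n') (Fin n') ℝ, S.PosDef →
        ENNReal.ofReal (((build t η S).submatrix (Fin.castLE hq) (Fin.castLE hq)).det ^ ν0) =
          ENNReal.ofReal (t ^ ν0) *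
            ENNReal.ofReal ((S.submatrix (Fin.castLE hq') (Fin.castLE hq')).det ^ ν0) := by
      intro t ht η S hSp
      have e := (hH n' t η S ht).2.2.2 q hq'
      have hd : 0 < (S.submatrix (Fin.castLE hq') (Fin.castLE hq')).det :=
        (hSp.submatrix (Fin.castLE_injective hq')).det_pos
      rw [← ENNReal.ofReal_mul (Real.rpow_nonneg ht.le _), ← Real.mul_rpow ht.le hd.le, ← e]
    -- the expectation of the tilting factor
    have hI1 : ∫⁻ X, ENNReal.ofReal ((X.submatrix (Fin.castLE hq) (Fin.castLE hq)).det ^ ν0) ∂(BW (n' + 1) a) =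
        A' * ∫⁻ X, ENNReal.ofReal (X 0 0 ^ ν0) ∂(BW (n' + 1) a) := by
      have m00 : Measurable (fun X : Matrix (Fin (n' + 1)) (Fin (n' + 1)) ℝ => ENNReal.ofReal (X 0 0 ^ ν0)) :=
        ((meas_entry 0 0).pow_const ν0).ennreal_ofReal
      rw [lint_BW h1 (meas_minor_pow hq ν0), lint_BW h1 m00]
      have e1 : ∫⁻ t, ∫⁻ η, ∫⁻ S, ENNReal.ofReal (((build t η S).submatrix (Fin.castLE hq)
          (Fin.castLE hq)).det ^ ν0) ∂(BW n' (a - 1)) ∂(gauss n') ∂(chi a) =
          ∫⁻ t, A' * ENNReal.ofReal (t ^ ν0) ∂(chi a) := by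
        apply lintegral_congr_ae
        filter_upwards [h4] with t ht
        have e2 : ∀ η : Fin n' → ℝ, ∫⁻ S, ENNReal.ofReal (((build t η S).submatrix (Fin.castLE hq)
            (Fin.castLE hq)).det ^ ν0) ∂(BW n' (a - 1)) = A' * ENNReal.ofReal (t ^ ν0) := by
          intro η
          have : ∫⁻ S, ENNReal.ofReal (((build t η S).submatrix (Fin.castLE hq)
              (Fin.castLE hq)).det ^ ν0) ∂(BW n' (a - 1)) =
              ∫⁻ S, ENNReal.ofReal (t ^ ν0) * ENNReal.ofReal ((S.submatrix (Fin.castLE hq')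
                (Fin.castLE hq')).det ^ ν0) ∂(BW n' (a - 1)) := by
            apply lintegral_congr_ae
            filter_upwards [h2] with S hSp
            exact hmin t ht η S hSp
          rw [this, lintegral_const_mul _ (meas_minor_pow hq' ν0), ← hA', mul_comm]
        simp [e2]
      have e3 : ∫⁻ t, ∫⁻ η, ∫⁻ S, ENNReal.ofReal ((build t η S) 0 0 ^ ν0) ∂(BW n' (a - 1)) ∂(gauss n') ∂(chi a) =
          ∫⁻ t, ENNReal.ofReal (t ^ ν0) ∂(chi a) := by
        simp [build_00]
      have mt : Measurable (fun t : ℝ => ENNReal.ofReal (t ^ ν0)) := (measurable_id.pow_const ν0).ennreal_ofReal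
      rw [e1, e3, lintegral_const_mul _ mt]
    -- the scalar case
    have hsc := hS n' a ha1 K p R C ν ν0 hR hν hν0 (by
      rcases hcond with h | h
      · left; intro k
        have := h k
        push_cast at this
        have hq0 : (0:ℝ) ≤ q := Nat.cast_nonneg q
        linarith
      · exact Or.inr h)
    have mG := meas_Gf p R C ν
    have m00 : Measurable (fun X : Matrix (Fin (n' + 1)) (Fin (n' + 1)) ℝ =>
        ENNReal.ofReal (X 0 0 ^ ν0) * Gf p R C ν X) :=
      ((meas_entry 0 0).pow_const ν0).ennreal_ofReal.mul mG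
    -- the induction step
    have hstep : A' * ∫⁻ X, ENNReal.ofReal (X 0 0 ^ ν0) * Gf p R C ν X ∂(BW (n' + 1) a) ≤
        ∫⁻ X, ENNReal.ofReal ((X.submatrix (Fin.castLE hq) (Fin.castLE hq)).det ^ ν0) *
          Gf p R C ν X ∂(BW (n' + 1) a) := by
      have mA : Measurable (fun X : Matrix (Fin (n' + 1)) (Fin (n' + 1)) ℝ =>
          A' * (ENNReal.ofReal (X 0 0 ^ ν0) * Gf p R C ν X)) := measurable_const.mul m00
      have mB : Measurable (fun X : Matrix (Fin (n' + 1)) (Fin (n' + 1)) ℝ =>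
          ENNReal.ofReal ((X.submatrix (Fin.castLE hq) (Fin.castLE hq)).det ^ ν0) * Gf p R C ν X) :=
        (meas_minor_pow hq ν0).mul mG
      rw [← lintegral_const_mul _ m00, lint_BW h1 mA, lint_BW h1 mB]
      apply lintegral_mono_ae
      filter_upwards [h4] with t ht
      apply lintegral_mono
      intro η
      have hi := ih n' hq' (a - 1) ha2 K p (fun k => R k + vecMulVec (C k *ᵥ rr t η) (C k *ᵥ rr t η))
        (fun k => (C k).submatrix id Fin.succ) ν ν0 (fun k => posDef_add (hR k) _) hν hν0 (by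
          rcases hcond with h | h
          · left; intro k
            have := h k
            push_cast at this
            linarith
          · exact Or.inr h)
      have mG' := meas_Gf p (fun k => R k + vecMulVec (C k *ᵥ rr t η) (C k *ᵥ rr t η))
        (fun k => (C k).submatrix id Fin.succ) ν
      have e1 : ∫⁻ S, A' * (ENNReal.ofReal ((build t η S) 0 0 ^ ν0) * Gf p R C ν (build t η S))
          ∂(BW n' (a - 1)) = ENNReal.ofReal (t ^ ν0) * (A' * ∫⁻ S, Gf p
            (fun k => R k + vecMulVec (C k *ᵥ rr t η) (C k *ᵥ rr t η))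
            (fun k => (C k).submatrix id Fin.succ) ν S ∂(BW n' (a - 1))) := by
        have mA' : Measurable (fun S => A' * Gf p (fun k => R k + vecMulVec (C k *ᵥ rr t η) (C k *ᵥ rr t η))
            (fun k => (C k).submatrix id Fin.succ) ν S) := measurable_const.mul mG'
        rw [← lintegral_const_mul _ mG', ← lintegral_const_mul _ mA']
        apply lintegral_congr
        intro S
        rw [build_00, Gf_build p R C ν ht.le]
        ring
      have e2 : ∫⁻ S, ENNReal.ofReal (((build t η S).submatrix (Fin.castLE hq) (Fin.castLE hq)).det ^ ν0) *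
          Gf p R C ν (build t η S) ∂(BW n' (a - 1)) = ENNReal.ofReal (t ^ ν0) *
          ∫⁻ S, ENNReal.ofReal ((S.submatrix (Fin.castLE hq') (Fin.castLE hq')).det ^ ν0) * Gf p
            (fun k => R k + vecMulVec (C k *ᵥ rr t η) (C k *ᵥ rr t η))
            (fun k => (C k).submatrix id Fin.succ) ν S ∂(BW n' (a - 1)) := by
        have mB' : Measurable (fun S : Matrix (Fin n') (Fin n') ℝ =>
            ENNReal.ofReal ((S.submatrix (Fin.castLE hq') (Fin.castLE hq')).det ^ ν0) *
            Gf p (fun k => R k + vecMulVec (C k *ᵥ rr t η) (C k *ᵥ rr t η))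
            (fun k => (C k).submatrix id Fin.succ) ν S) := (meas_minor_pow hq' ν0).mul mG'
        rw [← lintegral_const_mul _ mB']
        apply lintegral_congr_ae
        filter_upwards [h2] with S hSp
        rw [hmin t ht η S hSp, Gf_build p R C ν ht.le, mul_assoc]
      show ∫⁻ S, A' * (ENNReal.ofReal ((build t η S) 0 0 ^ ν0) * Gf p R C ν (build t η S))
          ∂(BW n' (a - 1)) ≤ ∫⁻ S, ENNReal.ofReal (((build t η S).submatrix (Fin.castLE hq)
            (Fin.castLE hq)).det ^ ν0) * Gf p R C ν (build t η S) ∂(BW n' (a - 1))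
      rw [e1, e2]
      exact mul_le_mul_right hi _
    calc (∫⁻ X, ENNReal.ofReal ((X.submatrix (Fin.castLE hq) (Fin.castLE hq)).det ^ ν0) ∂(BW (n' + 1) a)) *
          (∫⁻ X, Gf p R C ν X ∂(BW (n' + 1) a))
        = A' * ((∫⁻ X, ENNReal.ofReal (X 0 0 ^ ν0) ∂(BW (n' + 1) a)) *
            (∫⁻ X, Gf p R C ν X ∂(BW (n' + 1) a))) := by rw [hI1, mul_assoc]
      _ ≤ A' * ∫⁻ X, ENNReal.ofReal (X 0 0 ^ ν0) * Gf p R C ν X ∂(BW (n' + 1) a) :=
          mul_le_mul_right hsc _
      _ ≤ _ := hstep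

end Pool.Agent.TH435.WG
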